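import Pool.Agent.T3H29.EN.Rate

/-!
# Almost sure bounds for the sums over dyadic blocks
-/

set_option autoImplicit false

namespace Pool.Agent.T3H29.EN

open Finset MeasureTheory ProbabilityTheory Filter Topology
open Pool.Agent.H469R2.NK (e conj_e)

universe u

/-- the cube root -/
noncomputable def cr (i : ℕ) : ℝ := (i : ℝ) ^ (1 / 3 : ℝ)

lemma cr_nonneg (i : ℕ) : 0 ≤ cr i := Real.rpow_nonneg (Nat.cast_nonneg _) _

lemma cr_cube (i : ℕ) : cr i ^ 3 = i := by
  unfold cr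
  rw [← Real.rpow_natCast, ← Real.rpow_mul (Nat.cast_nonneg _)]
  norm_num

lemma cr_tendsto : Tendsto cr atTop atTop :=
  (tendsto_rpow_atTop (by norm_num : (0 : ℝ) < 1 / 3)).comp tendsto_natCast_atTop_atTop

lemma cl_two_pow (i : ℕ) : cr i / 2 ≤ cl ((2 ^ i : ℕ) : ℝ) := by
  unfold cl cr
  push_cast
  rw [Real.log_pow, Real.mul_rpow (Nat.cast_nonneg _) (Real.log_nonneg (by norm_num)), div_eq_mul_one_div]
  apply mul_le_mul_of_nonneg_left _ (Real.rpow_nonneg (Nat.cast_nonneg _) _)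
  have h1 : (1 / 2 : ℝ) = ((1 / 8 : ℝ)) ^ (1 / 3 : ℝ) := by
    have : (1 / 8 : ℝ) = (1 / 2 : ℝ) ^ (3 : ℝ) := by norm_num
    rw [this, ← Real.rpow_mul (by norm_num)]
    norm_num
  rw [h1]
  apply Real.rpow_le_rpow (by norm_num) _ (by norm_num)
  have := Real.log_two_gt_d9
  linarith

/-- the number of points -/
noncomputable def RR (c : ℝ) (i : ℕ) : ℕ := ⌊Real.exp (c * cr i)⌋₊

lemma RR_pos (c : ℝ) (hc : 0 < c) (i : ℕ) : 1 ≤ RR c i := by
  unfold RR
  rw [Nat.one_le_floor_iff]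
  exact Real.one_le_exp (mul_nonneg hc.le (cr_nonneg i))

lemma RR_le (c : ℝ) (i : ℕ) : (RR c i : ℝ) ≤ Real.exp (c * cr i) := Nat.floor_le (Real.exp_pos _).le

lemma RR_ge (c : ℝ) (hc : 0 < c) (i : ℕ) : Real.exp (c * cr i) / 2 ≤ RR c i := by
  have h1 : (1 : ℝ) ≤ RR c i := by exact_mod_cast RR_pos c hc i
  have h2 : Real.exp (c * cr i) < RR c i + 1 := Nat.lt_floor_add_one _
  linarith

lemma summable_cr (k : ℝ) (hk : 0 < k) : Summable (fun i : ℕ => 2 * Real.exp (-(k * cr i))) := by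
  apply Summable.mul_left
  have h1 : ∀ᶠ i : ℕ in atTop, Real.exp (-(k * cr i)) ≤ 1 / (i : ℝ) ^ 2 := by
    filter_upwards [cr_tendsto.eventually (ev_small k 1 hk 6 1 one_pos), eventually_ge_atTop 1] with i h1 h2
    have h3 : (0 : ℝ) < i := by exact_mod_cast h2
    rw [le_div_iff₀ (by positivity)]
    have h4 : cr i ^ 6 = (i : ℝ) ^ 2 := by
      calc cr i ^ 6 = (cr i ^ 3) ^ 2 := by ring
        _ = _ := by rw [cr_cube]
    rw [h4] at h1
    linarith
  apply Summable.of_norm_bounded_eventually_nat (g := fun i : ℕ => 1 / (i : ℝ) ^ 2)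
    (Real.summable_one_div_nat_pow.2 (by norm_num))
  filter_upwards [h1] with i hi
  rw [Real.norm_of_nonneg (Real.exp_pos _).le]
  exact hi

lemma SS_measurable {Ω : Type u} [MeasurableSpace Ω] (z : ℕ → ℂ) (β : ℝ) (f : Ω → ℝ) (hf : Measurable f)
    (s : Finset ℕ) : Measurable (fun ω => SS z β (f ω) s) := by
  unfold SS
  apply Finset.measurable_fun_sum
  intro n _
  exact (e_cont.measurable.comp (hf.const_mul _)).const_mul _

lemma cheb {Ω : Type u} [MeasurableSpace Ω] (μ : Measure Ω) [IsProbabilityMeasure μ] (z : ℕ → ℂ)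
    (hz : ∀ n, ‖z n‖ ≤ 1) (β : ℝ) (f : Ω → ℝ) (hf : Measurable f) (s : Finset ℕ) (t E : ℝ) (ht : 0 < t)
    (hE : ∫ ω, ‖SS z β (f ω) s‖ ^ 2 ∂μ ≤ E) :
    μ.real {ω | t ≤ ‖SS z β (f ω) s‖} ≤ E / t ^ 2 := by
  have hm := SS_measurable z β f hf s
  have hint : Integrable (fun ω => ‖SS z β (f ω) s‖ ^ 2) μ := by
    refine Integrable.of_bound (hm.norm.pow_const 2).aestronglyMeasurable ((s.card : ℝ) ^ 2)
      (Eventually.of_forall fun ω => ?_)
    rw [Real.norm_of_nonneg (by positivity)]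
    exact pow_le_pow_left₀ (norm_nonneg _) (norm_SS_le z hz β _ s) 2
  have h1 := mul_meas_ge_le_integral_of_nonneg (μ := μ) (f := fun ω => ‖SS z β (f ω) s‖ ^ 2)
    (Eventually.of_forall fun ω => by positivity) hint (t ^ 2)
  have h2 : {ω | t ≤ ‖SS z β (f ω) s‖} = {ω | t ^ 2 ≤ ‖SS z β (f ω) s‖ ^ 2} := by
    ext ω
    exact ⟨fun h => pow_le_pow_left₀ ht.le h 2, fun h => le_of_sq_le_sq h (norm_nonneg _)⟩
  rw [h2, le_div_iff₀ (by positivity), mul_comm]
  exact h1.trans hE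

theorem as_block (B : ℕ) (hB : 1 ≤ B) (κ : ℝ) (hκ : 0 < κ) (hκ1 : κ ≤ 1) (D : ℕ) :
    ∃ c : ℝ, 0 < c ∧ c ≤ 1 ∧ ∀ (Ω : Type u) [MeasurableSpace Ω] (μ : Measure Ω)
      [IsProbabilityMeasure μ] (b : ℕ → ℕ) (X : ℕ → Ω → ℤ), Dig μ B κ b X →
      ∀ F : ℕ → Finset (ℝ × (ℕ → ℂ)),
      (∀ᶠ i : ℕ in atTop, ((F i).card : ℝ) ≤ (RR c i : ℝ) ^ (D + 1) ∧ ∀ p ∈ F i, (∀ n, ‖p.2 n‖ ≤ 1) ∧
        Real.exp (-(((2 ^ i : ℕ) : ℝ) / 16)) ≤ |p.1| ∧ |p.1| ≤ Real.exp (((2 ^ i : ℕ) : ℝ) / 16)) →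
      ∀ᵐ ω ∂μ, ∀ᶠ i : ℕ in atTop, ∀ p ∈ F i, ∀ L ≤ 2 ^ i,
        ‖SS p.2 p.1 (ser X (qq b) ω) (Ioc (2 ^ i) (2 ^ i + L))‖ ≤ 3 * (((2 ^ i : ℕ) : ℝ) / RR c i) := by
  classical
  obtain ⟨c₂, hc₂, hrate⟩ := rate.{u} B hB κ hκ hκ1
  have hD : (0 : ℝ) < D + 4 := by positivity
  refine ⟨min 1 (c₂ / (4 * (D + 4))), lt_min one_pos (by positivity), min_le_left _ _, ?_⟩
  set c := min 1 (c₂ / (4 * ((D : ℝ) + 4))) with hc
  have hc0 : 0 < c := lt_min one_pos (by positivity)
  have hc1 : c ≤ 1 := min_le_left _ _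
  have hc2 : (D + 4) * c ≤ c₂ / 4 := by
    have : c ≤ c₂ / (4 * (D + 4)) := min_le_right _ _
    calc ((D : ℝ) + 4) * c ≤ (D + 4) * (c₂ / (4 * (D + 4))) := mul_le_mul_of_nonneg_left this hD.le
      _ = c₂ / 4 := by field_simp
  intro Ω _ μ _ b X h F hF
  have hser := ser_measurable X h.meas (qq b) B h.bd (qq_pow b (fun j => (h.hb j).1))
  have hpow : Tendsto (fun i : ℕ => 2 ^ i) atTop atTop := tendsto_pow_atTop_atTop_of_one_lt one_lt_two
  -- the exceptional sets
  set S : ℕ → Set Ω := fun i => ⋃ p ∈ F i, ⋃ r ∈ range (RR c i + 1),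
    {ω | ((2 ^ i : ℕ) : ℝ) / RR c i ≤ ‖SS p.2 p.1 (ser X (qq b) ω)
      (Ioc (2 ^ i) (2 ^ i + r * 2 ^ i / RR c i))‖} with hS
  have hSbound : ∀ᶠ i : ℕ in atTop, μ.real (S i) ≤ 2 * Real.exp (-(c₂ / 4 * cr i)) := by
    filter_upwards [hF, hpow.eventually hrate] with i h1 h2
    have hR1 : (1 : ℝ) ≤ RR c i := by exact_mod_cast RR_pos c hc0 i
    have hR0 : (0 : ℝ) < RR c i := by linarith
    set M := 2 ^ i with hM
    have hM0 : (0 : ℝ) < (M : ℝ) := by rw [hM]; positivity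
    set E := Real.exp (-(c₂ / 2 * cr i)) with hE
    have hone : ∀ p ∈ F i, ∀ r ∈ range (RR c i + 1), μ.real {ω | (M : ℝ) / RR c i ≤
        ‖SS p.2 p.1 (ser X (qq b) ω) (Ioc M (M + r * M / RR c i))‖} ≤ (RR c i : ℝ) ^ 2 * E := by
      intro p hp r hr
      obtain ⟨hp1, hp2, hp3⟩ := h1.2 p hp
      have hsub : Ioc M (M + r * M / RR c i) ⊆ Ioc M (2 * M) := by
        apply Ioc_subset_Ioc_right
        have : r * M / RR c i ≤ M := by
          apply Nat.div_le_of_le_mul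
          rw [mem_range] at hr
          exact Nat.mul_le_mul_right _ (by omega)
        omega
      have h3 := h2 Ω μ b X h p.2 hp1 p.1 hp2 hp3 _ hsub
      have h4 := cheb μ p.2 hp1 p.1 _ hser _ ((M : ℝ) / RR c i) _ (by positivity) h3
      refine h4.trans ?_
      rw [div_le_iff₀ (by positivity)]
      have h5 : Real.exp (-(c₂ * cl (M : ℝ))) ≤ E := by
        apply Real.exp_le_exp.2
        have := cl_two_pow i
        rw [← hM] at this
        nlinarith
      calc (M : ℝ) ^ 2 * Real.exp (-(c₂ * cl (M : ℝ))) ≤ (M : ℝ) ^ 2 * E :=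
            mul_le_mul_of_nonneg_left h5 (by positivity)
        _ = (RR c i : ℝ) ^ 2 * E * ((M : ℝ) / RR c i) ^ 2 := by field_simp
    calc μ.real (S i) ≤ ∑ p ∈ F i, μ.real (⋃ r ∈ range (RR c i + 1), {ω | (M : ℝ) / RR c i ≤
          ‖SS p.2 p.1 (ser X (qq b) ω) (Ioc M (M + r * M / RR c i))‖}) :=
          measureReal_biUnion_finset_le _ _
      _ ≤ ∑ p ∈ F i, ∑ r ∈ range (RR c i + 1), μ.real {ω | (M : ℝ) / RR c i ≤
          ‖SS p.2 p.1 (ser X (qq b) ω) (Ioc M (M + r * M / RR c i))‖} :=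
          sum_le_sum fun p _ => measureReal_biUnion_finset_le _ _
      _ ≤ ∑ _p ∈ F i, ∑ _r ∈ range (RR c i + 1), (RR c i : ℝ) ^ 2 * E :=
          sum_le_sum fun p hp => sum_le_sum fun r hr => hone p hp r hr
      _ = (F i).card * ((RR c i + 1) * ((RR c i : ℝ) ^ 2 * E)) := by
          rw [sum_const, sum_const, nsmul_eq_mul, nsmul_eq_mul, card_range]; push_cast; ring
      _ ≤ (RR c i : ℝ) ^ (D + 1) * ((2 * RR c i) * ((RR c i : ℝ) ^ 2 * E)) := by
          apply mul_le_mul h1.1 _ (by positivity) (by positivity)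
          apply mul_le_mul_of_nonneg_right _ (by positivity)
          linarith
      _ = 2 * ((RR c i : ℝ) ^ (D + 4) * E) := by ring
      _ ≤ 2 * (Real.exp ((D + 4) * c * cr i) * E) := by
          have h6 : (RR c i : ℝ) ^ (D + 4) ≤ Real.exp ((D + 4) * c * cr i) := by
            calc (RR c i : ℝ) ^ (D + 4) ≤ (Real.exp (c * cr i)) ^ (D + 4) :=
                  pow_le_pow_left₀ hR0.le (RR_le c i) _
              _ = _ := by rw [← Real.exp_nat_mul]; congr 1; push_cast; ring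
          have hE0 : 0 < E := Real.exp_pos _
          nlinarith [mul_le_mul_of_nonneg_right h6 hE0.le]
      _ ≤ 2 * Real.exp (-(c₂ / 4 * cr i)) := by
          rw [hE, ← Real.exp_add]
          have h7 : (D + 4) * c * cr i + -(c₂ / 2 * cr i) ≤ -(c₂ / 4 * cr i) := by
            have := mul_le_mul_of_nonneg_right hc2 (cr_nonneg i)
            nlinarith [cr_nonneg i]
          have := Real.exp_le_exp.2 h7
          linarith
  have hsum : Summable (fun i => μ.real (S i)) := by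
    apply Summable.of_norm_bounded_eventually_nat (summable_cr (c₂ / 4) (by positivity))
    filter_upwards [hSbound] with i hi
    rw [Real.norm_of_nonneg measureReal_nonneg]
    exact hi
  have hne : ∑' i, μ (S i) ≠ ⊤ := by
    have := hsum.tsum_ofReal_ne_top
    convert this using 3 with i
    rw [ofReal_measureReal (measure_ne_top _ _)]
  have hae := ae_eventually_notMem hne
  filter_upwards [hae] with ω hω
  have hRlarge : ∀ᶠ i : ℕ in atTop, (RR c i : ℝ) ≤ ((2 ^ i : ℕ) : ℝ) := by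
    filter_upwards [cr_tendsto.eventually_ge_atTop 2] with i hi
    calc (RR c i : ℝ) ≤ Real.exp (c * cr i) := RR_le c i
      _ ≤ Real.exp ((i : ℝ) * Real.log 2) := by
          apply Real.exp_le_exp.2
          have h1 := cr_cube i
          have h2 := Real.log_two_gt_d9
          have h3 : c * cr i ≤ cr i := by nlinarith
          have h4 : 2 * cr i ≤ i := by rw [← h1]; nlinarith [sq_nonneg (cr i - 2)]
          nlinarith
      _ = ((2 ^ i : ℕ) : ℝ) := by
          rw [mul_comm, Real.exp_mul, Real.exp_log (by norm_num)]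
          push_cast
          rw [Real.rpow_natCast]
  filter_upwards [hω, hRlarge, hF] with i h1 h2 h0
  intro p hp L hL
  have hR1 := RR_pos c hc0 i
  set R := RR c i with hR
  have hR1' : (1 : ℝ) ≤ R := by exact_mod_cast hR1
  have hR0 : (0 : ℝ) < R := by linarith
  set M := 2 ^ i with hM
  have hMp : 0 < M := by rw [hM]; positivity
  have hM0 : (0 : ℝ) < (M : ℝ) := by exact_mod_cast hMp
  obtain ⟨hp1, hp2, hp3⟩ := h0.2 p hp
  -- the nearest point
  set r := L * R / M with hr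
  have hrR : r ≤ R := by
    apply Nat.div_le_of_le_mul
    exact Nat.mul_le_mul_right _ hL
  set y := r * M / R with hy
  have hyL : y ≤ L := by
    apply Nat.div_le_of_le_mul
    calc r * M ≤ L * R := Nat.div_mul_le_self _ _
      _ = R * L := mul_comm _ _
  have hgap : (L : ℝ) - y ≤ M / R + 1 := by
    have e1 : (L : ℝ) * R / M < r + 1 := by
      have : L * R < (r + 1) * M := by
        have := Nat.div_add_mod (L * R) M
        have h4 := Nat.mod_lt (L * R) hMp
        rw [← hr] at this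
        nlinarith
      rw [div_lt_iff₀ hM0]
      exact_mod_cast this
    have e2 : (r : ℝ) * M / R < y + 1 := by
      have : r * M < (y + 1) * R := by
        have h3 := Nat.div_add_mod (r * M) R
        have h4 := Nat.mod_lt (r * M) (by omega : 0 < R)
        rw [← hy] at h3
        nlinarith
      rw [div_lt_iff₀ hR0]
      exact_mod_cast this
    have e3 : (L : ℝ) < (r + 1) * M / R := by
      rw [lt_div_iff₀ hR0]
      rw [div_lt_iff₀ hM0] at e1
      exact e1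
    have e4 : ((r : ℝ) + 1) * M / R = r * M / R + M / R := by ring
    rw [e4] at e3
    linarith
  have hmain : ‖SS p.2 p.1 (ser X (qq b) ω) (Ioc M (M + y))‖ ≤ M / R := by
    have h3 : ω ∉ S i := h1
    rw [hS] at h3
    simp only [Set.mem_iUnion, Set.mem_ofPred_eq, not_exists, not_le] at h3
    exact (h3 p hp r (mem_range.2 (by omega))).le
  have hsplit : SS p.2 p.1 (ser X (qq b) ω) (Ioc M (M + L)) =
      SS p.2 p.1 (ser X (qq b) ω) (Ioc M (M + y)) +
      SS p.2 p.1 (ser X (qq b) ω) (Ioc (M + y) (M + L)) := by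
    unfold SS
    rw [← sum_union]
    · rw [Ioc_union_Ioc_eq_Ioc (Nat.le_add_right _ _) (Nat.add_le_add_left hyL _)]
    · rw [Finset.disjoint_left]
      intro n hn hn'
      rw [mem_Ioc] at hn hn'
      exact absurd hn.2 (not_le.2 hn'.1)
  have hrest : ‖SS p.2 p.1 (ser X (qq b) ω) (Ioc (M + y) (M + L))‖ ≤ M / R + 1 := by
    refine (norm_SS_le _ hp1 _ _ _).trans ?_
    rw [Nat.card_Ioc]
    rw [Nat.add_sub_add_left, Nat.cast_sub hyL]
    exact hgap
  have h6 : (1 : ℝ) ≤ M / R := by rw [le_div_iff₀ hR0, one_mul]; exact h2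
  rw [hsplit]
  refine (norm_add_le _ _).trans ?_
  linarith

end Pool.Agent.T3H29.EN
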