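import Pool.Agent.T3H29.EN.Poly

/-!
# All `N`, and the bases `e ^ (p / q)`
-/

set_option autoImplicit false

namespace Pool.Agent.T3H29.EN

open Finset MeasureTheory ProbabilityTheory Filter Topology
open Pool.Agent.H469R2.NK (e conj_e)

universe u

/-- the sums over `1 ≤ n ≤ N` -/
noncomputable def UU (f : ℕ → ℂ) (N : ℕ) : ℂ := ∑ n ∈ Icc 1 N, f n

lemma UU_add (f : ℕ → ℂ) (M L : ℕ) : UU f (M + L) = UU f M + ∑ k ∈ range L, f (M + 1 + k) := by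
  unfold UU
  have h1 : Icc 1 (M + L) = Ico 1 (M + L + 1) := by ext n; rw [mem_Icc, mem_Ico]; omega
  have h2 : Icc 1 M = Ico 1 (M + 1) := by ext n; rw [mem_Icc, mem_Ico]; omega
  rw [h1, h2, ← sum_Ico_consecutive f (by omega : 1 ≤ M + 1) (by omega : M + 1 ≤ M + L + 1),
    sum_Ico_eq_sum_range f (M + 1)]
  have h3 : M + L + 1 - (M + 1) = L := by omega
  rw [h3]

lemma UU_le (f : ℕ → ℂ) (hf : ∀ n, ‖f n‖ ≤ 1) (N : ℕ) : ‖UU f N‖ ≤ N := by
  unfold UU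
  calc _ ≤ ∑ n ∈ Icc 1 N, ‖f n‖ := norm_sum_le _ _
    _ ≤ ∑ _n ∈ Icc 1 N, (1 : ℝ) := sum_le_sum fun n _ => hf n
    _ = N := by simp

lemma dyadic_sum (f : ℕ → ℂ) (hf : ∀ n, ‖f n‖ ≤ 1) (j₀ : ℕ) (ε : ℝ)
    (h : ∀ j, j₀ ≤ j → ∀ L ≤ 2 ^ j, ‖∑ k ∈ range L, f (2 ^ j + 1 + k)‖ ≤ 10 * (((2 ^ j : ℕ) : ℝ) * ε))
    (i : ℕ) (hi : j₀ ≤ i) (L : ℕ) (hL : L ≤ 2 ^ i) :
    ‖UU f (2 ^ i + L)‖ ≤ 2 ^ j₀ + 20 * ((2 : ℝ) ^ i * ε) := by
  have key : ∀ i, j₀ ≤ i → ‖UU f (2 ^ i)‖ ≤ 2 ^ j₀ + 10 * ((2 : ℝ) ^ i * ε) := by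
    intro i hi
    induction i, hi using Nat.le_induction with
    | base =>
      have h1 := UU_le f hf (2 ^ j₀)
      have h2 := h j₀ le_rfl 0 (Nat.zero_le _)
      simp only [range_zero, sum_empty, norm_zero] at h2
      push_cast at h1 h2
      linarith
    | succ i hi ih =>
      have h1 : 2 ^ (i + 1) = 2 ^ i + 2 ^ i := by ring
      rw [h1, UU_add]
      refine (norm_add_le _ _).trans ?_
      have h2 := h i hi (2 ^ i) le_rfl
      push_cast at h2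
      rw [pow_succ]
      linarith
  rw [UU_add]
  refine (norm_add_le _ _).trans ?_
  have h1 := key i hi
  have h2 := h i hi L hL
  push_cast at h2
  linarith

theorem weyl_all (B : ℕ) (hB : 1 ≤ B) (κ : ℝ) (hκ : 0 < κ) (hκ1 : κ ≤ 1) (D : ℕ) :
    ∃ c : ℝ, 0 < c ∧ ∀ (Ω : Type u) [MeasurableSpace Ω] (μ : Measure Ω)
      [IsProbabilityMeasure μ] (b : ℕ → ℕ) (X : ℕ → Ω → ℤ), Dig μ B κ b X →
      ∀ α : ℝ, α ≠ 0 → ∀ z : ℕ → ℕ → ℂ, (∀ h n, ‖z h n‖ ≤ 1) →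
      ∀ᵐ ω ∂μ, ∀ᶠ N : ℕ in atTop, ∀ h : ℕ, 1 ≤ h → (h : ℝ) ≤ Real.exp (c * cl N) →
        ∀ P : Polynomial ℝ, P.natDegree ≤ D →
        ‖UU (fun n => z h n * e (h * α * Real.exp n * ser X (qq b) ω + P.eval (n : ℝ))) N‖ ≤
          N * Real.exp (-(c * cl N)) := by
  obtain ⟨c, hc, c', hc', hpoly⟩ := poly_as.{u} B hB κ hκ hκ1 D
  obtain ⟨c₀, hc₀, hc₀1, hc₀2, hc₀3⟩ : ∃ c₀ : ℝ, 0 < c₀ ∧ c₀ ≤ 1 / 4 ∧ c₀ ≤ c' / 4 ∧ c₀ ≤ c / 4 :=
    ⟨min (1 / 4) (min (c' / 4) (c / 4)), lt_min (by norm_num) (lt_min (by positivity) (by positivity)),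
      min_le_left _ _, (min_le_right _ _).trans (min_le_left _ _),
      (min_le_right _ _).trans (min_le_right _ _)⟩
  refine ⟨c₀, hc₀, ?_⟩
  intro Ω _ μ _ b X hdig α hα z hz
  filter_upwards [hpoly Ω μ b X hdig α hα z hz] with ω hω
  obtain ⟨i₀, hi₀⟩ := eventually_atTop.1 hω
  have hT := cl_tendsto
  filter_upwards [eventually_ge_atTop (2 ^ (2 * i₀ + 2)),
    hT.eventually_ge_atTop 1,
    hT.eventually (Real.tendsto_exp_atTop.comp (tendsto_id.const_mul_atTop hc₀) |>.eventually_ge_atTop 42)]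
    with N hN hu1 hu2
  intro h hh1 hh2 P hP
  simp only [Function.comp, id] at hu2
  have hN1 : 1 ≤ N := le_trans (Nat.one_le_two_pow) hN
  have hN1' : (1 : ℝ) ≤ N := by exact_mod_cast hN1
  have hN0 : (0 : ℝ) < N := by linarith
  set u := cl (N : ℝ) with hu
  have hcube : u ^ 3 = Real.log N := cl_cube _ hN1'
  obtain ⟨i, hi1, hi2⟩ : ∃ i, 2 ^ i ≤ N ∧ N < 2 ^ (i + 1) :=
    ⟨Nat.log 2 N, Nat.pow_log_le_self 2 (by omega), Nat.lt_pow_succ_log_self (by norm_num) N⟩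
  have hii : 2 * i₀ + 2 ≤ i := by
    have : 2 ^ (2 * i₀ + 2) < 2 ^ (i + 1) := lt_of_le_of_lt hN hi2
    have := (Nat.pow_lt_pow_iff_right (by norm_num : 1 < 2)).1 this
    omega
  set j₀ := i / 2 with hj₀
  have hj1 : i₀ ≤ j₀ := by omega
  have hj2 : j₀ ≤ i := by omega
  -- comparison of the cube roots
  have hlogN : Real.log N ≤ ((i + 1 : ℕ) : ℝ) := by
    have h1 : (N : ℝ) ≤ (2 : ℝ) ^ (i + 1) := by exact_mod_cast hi2.le
    calc Real.log N ≤ Real.log ((2 : ℝ) ^ (i + 1)) := Real.log_le_log hN0 h1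
      _ = ((i + 1 : ℕ) : ℝ) * Real.log 2 := by rw [Real.log_pow]
      _ ≤ ((i + 1 : ℕ) : ℝ) * 1 := by
          apply mul_le_mul_of_nonneg_left _ (Nat.cast_nonneg _)
          have := Real.log_two_lt_d9
          linarith
      _ = _ := mul_one _
  have hcr : u / 2 ≤ cr j₀ := by
    have h1 : (Real.log N) / 8 ≤ (j₀ : ℝ) := by
      have h2 : i + 1 ≤ 8 * j₀ := by omega
      have h3 : ((i + 1 : ℕ) : ℝ) ≤ 8 * j₀ := by exact_mod_cast h2
      linarith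
    have h2 : (u / 2) ^ 3 ≤ (cr j₀) ^ 3 := by
      rw [cr_cube, div_pow, hcube]
      norm_num
      linarith
    exact le_of_pow_le_pow_left₀ (by norm_num) (cr_nonneg _) h2
  have hcrmono : ∀ j, j₀ ≤ j → cr j₀ ≤ cr j := by
    intro j hj
    unfold cr
    exact Real.rpow_le_rpow (Nat.cast_nonneg _) (by exact_mod_cast hj) (by norm_num)
  -- the range of `h`
  have hhR : ∀ j, j₀ ≤ j → h ∈ Icc 1 (RR c j) := by
    intro j hj
    rw [mem_Icc]
    refine ⟨hh1, ?_⟩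
    have h1 : Real.exp (c₀ * u) * Real.exp (c₀ * u) ≤ Real.exp (c * cr j) := by
      rw [← Real.exp_add]
      apply Real.exp_le_exp.2
      have h2 := hcr.trans (hcrmono j hj)
      nlinarith
    have h2 := RR_ge c hc j
    have h3 : (h : ℝ) ≤ RR c j := by
      have h4 := Real.exp_pos (c₀ * u)
      nlinarith
    exact_mod_cast h3
  -- the blocks
  set f : ℕ → ℂ := fun n => z h n * e (h * α * Real.exp n * ser X (qq b) ω + P.eval (n : ℝ)) with hf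
  have hf1 : ∀ n, ‖f n‖ ≤ 1 := by
    intro n
    rw [hf]
    simp only
    rw [norm_mul, norm_e', mul_one]
    exact hz h n
  obtain ⟨L, hL⟩ : ∃ L, N = 2 ^ i + L := ⟨N - 2 ^ i, by omega⟩
  have hLi : L ≤ 2 ^ i := by rw [pow_succ] at hi2; omega
  have hd := dyadic_sum f hf1 j₀ (Real.exp (-(c' * (u / 2)))) (by
    intro j hj L' hL'
    have h1 := hi₀ j (hj1.trans hj) h (hhR j hj) P hP L' hL'
    have h2 : ∑ k ∈ range L', f (2 ^ j + 1 + k) = TT (z h) (h * α) (ser X (qq b) ω) P (2 ^ j) L' := rfl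
    rw [h2]
    refine h1.trans ?_
    have h3 : Real.exp (-(c' * cr j)) ≤ Real.exp (-(c' * (u / 2))) := by
      apply Real.exp_le_exp.2
      have := hcr.trans (hcrmono j hj)
      nlinarith
    gcongr) i hj2 L hLi
  rw [← hL] at hd
  refine hd.trans ?_
  have hi1' : (2 : ℝ) ^ i ≤ N := by exact_mod_cast hi1
  have hsq : (2 : ℝ) ^ j₀ ≤ N * Real.exp (-(u / 2)) := by
    have h1 : ((2 : ℝ) ^ j₀) ^ 2 ≤ N := by
      rw [← pow_mul]
      calc (2 : ℝ) ^ (j₀ * 2) ≤ 2 ^ i := pow_le_pow_right₀ (by norm_num) (by omega)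
        _ ≤ N := hi1'
    have h2 : (N : ℝ) ≤ (N * Real.exp (-(u / 2))) ^ 2 := by
      rw [mul_pow, ← Real.exp_nat_mul]
      have h3 : ((2 : ℕ) : ℝ) * -(u / 2) = -u := by push_cast; ring
      rw [h3]
      have h4 : Real.exp u ≤ N := by
        calc Real.exp u ≤ Real.exp (u ^ 3) := Real.exp_le_exp.2 (by nlinarith [sq_nonneg u])
          _ = N := by rw [hcube, Real.exp_log hN0]
      have h5 : 1 = Real.exp u * Real.exp (-u) := by rw [← Real.exp_add]; simp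
      have h6 : 1 ≤ N * Real.exp (-u) := by
        rw [h5]
        exact mul_le_mul_of_nonneg_right h4 (Real.exp_pos _).le
      nlinarith
    exact le_of_sq_le_sq (h1.trans h2) (by positivity)
  have he1 : Real.exp (-(u / 2)) ≤ Real.exp (-(c₀ * u)) * Real.exp (-(c₀ * u)) := by
    rw [← Real.exp_add]
    apply Real.exp_le_exp.2
    nlinarith
  have he2 : Real.exp (-(c' * (u / 2))) ≤ Real.exp (-(c₀ * u)) * Real.exp (-(c₀ * u)) := by
    rw [← Real.exp_add]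
    apply Real.exp_le_exp.2
    nlinarith
  have he3 : Real.exp (-(c₀ * u)) ≤ 1 / 42 := by
    rw [Real.exp_neg, one_div]
    exact inv_anti₀ (by norm_num) hu2
  set E := Real.exp (-(c₀ * u)) with hE
  have hE0 : 0 < E := Real.exp_pos _
  have g1 : (2 : ℝ) ^ j₀ ≤ N * (E * E) := hsq.trans (mul_le_mul_of_nonneg_left he1 hN0.le)
  have g2 : (2 : ℝ) ^ i * Real.exp (-(c' * (u / 2))) ≤ N * (E * E) :=
    mul_le_mul hi1' he2 (Real.exp_pos _).le hN0.le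
  have g3 : E * E ≤ 1 / 42 * E := mul_le_mul_of_nonneg_right he3 hE0.le
  nlinarith

end Pool.Agent.T3H29.EN
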