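import Pool.Agent.Results.MP_9056e9_nt.AlmostAllExponents

/-!
# Almost all `n`: `a e ^ n` is not too close to an integer, for every real `a ≠ 0`
-/

set_option autoImplicit false

namespace Pool.Agent.T3H29.EN

open Finset

/-- `a e ^ n` is larger than `e` in absolute value and closer than `(|a| e ^ n) ^ (-δ)` to an integer -/
def BadE (a δ : ℝ) (n : ℕ) : Prop :=
  Real.exp 1 ≤ |a| * Real.exp n ∧ ∃ p : ℤ, |a * Real.exp n - p| < (|a| * Real.exp n) ^ (-δ)

open Classical in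
theorem badE : ∃ A : ℝ, 0 < A ∧ ∀ δ a : ℝ, 0 < δ → δ ≤ 1 → a ≠ 0 → ∀ N : ℕ, 1 ≤ N →
    (((Icc 1 N).filter (BadE a δ)).card : ℝ) ≤ A / δ * (N : ℝ) ^ (1 - δ ^ 2 / 12800) := by
  obtain ⟨A, hA, h⟩ := Results.MP_9056e9_nt.AlmostAllExponents.result 0
  -- large `a`
  have large : ∀ δ a : ℝ, 0 < δ → δ ≤ 1 → 1 ≤ |a| → ∀ N : ℕ, 1 ≤ N →
      (((Icc 1 N).filter (BadE a δ)).card : ℝ) ≤ A / δ * (N : ℝ) ^ (1 - δ ^ 2 / 12800) := by
    intro δ a hδ hδ1 ha N hN
    have h1 := h δ a 1 0 N hδ hδ1 ha le_rfl (by simp) hN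
    have e1 : δ ^ 2 / (12800 * 2 ^ 0) = δ ^ 2 / 12800 := by norm_num
    rw [e1] at h1
    refine le_trans ?_ h1
    have hsub : (((Icc 1 N).filter (BadE a δ) : Finset ℕ) : Set ℕ) ⊆
        {n : ℕ | 1 ≤ n ∧ n ≤ N ∧ ∃ (q : ℕ) (p : ℤ), 1 ≤ q ∧ (q : ℝ) ≤ 1 ∧
        |a * Real.exp n + (0 : Polynomial ℝ).eval (n : ℝ) - p / q| <
          (|a| * Real.exp n) ^ (-δ) * 1 ^ (-(96 * 2 ^ 0 / δ))} := by
      intro n hn
      rw [mem_coe, mem_filter, mem_Icc] at hn
      obtain ⟨⟨h2, h3⟩, _, p, hp⟩ := hn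
      refine ⟨h2, h3, 1, p, le_rfl, by norm_num, ?_⟩
      simpa using hp
    have hfin : {n : ℕ | 1 ≤ n ∧ n ≤ N ∧ ∃ (q : ℕ) (p : ℤ), 1 ≤ q ∧ (q : ℝ) ≤ 1 ∧
        |a * Real.exp n + (0 : Polynomial ℝ).eval (n : ℝ) - p / q| <
          (|a| * Real.exp n) ^ (-δ) * 1 ^ (-(96 * 2 ^ 0 / δ))}.Finite :=
      (Set.finite_Icc 1 N).subset (fun n hn => ⟨hn.1, hn.2.1⟩)
    have h4 := Set.ncard_le_ncard hsub hfin
    rw [Set.ncard_coe_finset] at h4
    exact_mod_cast h4
  refine ⟨A, hA, ?_⟩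
  intro δ a hδ hδ1 ha N hN
  rcases le_or_gt 1 |a| with h1 | h1
  · exact large δ a hδ hδ1 h1 N hN
  · have ha0 : 0 < |a| := abs_pos.2 ha
    have hlog : Real.log |a| < 0 := Real.log_neg ha0 h1
    set s : ℕ := ⌈-Real.log |a|⌉₊ with hs
    have hs1 : -Real.log |a| ≤ s := Nat.le_ceil _
    have hs2 : (s : ℝ) < -Real.log |a| + 1 := Nat.ceil_lt_add_one (by linarith)
    have ha' : 1 ≤ |a * Real.exp s| := by
      rw [abs_mul, Real.abs_exp]
      have : |a| = Real.exp (Real.log |a|) := (Real.exp_log ha0).symm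
      rw [this, ← Real.exp_add]
      exact Real.one_le_exp (by linarith)
    refine le_trans ?_ (large δ (a * Real.exp s) hδ hδ1 ha' N hN)
    rw [Nat.cast_le]
    have hgt : ∀ n ∈ (Icc 1 N).filter (BadE a δ), s + 1 ≤ n := by
      intro n hn
      rw [mem_filter] at hn
      obtain ⟨_, h2, _⟩ := hn
      have h3 := Real.log_le_log (Real.exp_pos 1) h2
      rw [Real.log_exp, Real.log_mul ha0.ne' (Real.exp_pos _).ne', Real.log_exp] at h3
      have h4 : (s : ℝ) < n := by linarith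
      have h5 : s < n := by exact_mod_cast h4
      omega
    apply Finset.card_le_card_of_injOn (fun n => n - s)
    · intro n hn
      have h2 := hgt n hn
      rw [mem_coe, mem_filter, mem_Icc] at hn ⊢
      obtain ⟨⟨h3, h4⟩, h5, p, h6⟩ := hn
      have e1 : a * Real.exp s * Real.exp ((n - s : ℕ) : ℝ) = a * Real.exp n := by
        rw [mul_assoc, ← Real.exp_add]
        congr 2
        rw [Nat.cast_sub (by omega)]
        ring
      have e2 : |a * Real.exp s| * Real.exp ((n - s : ℕ) : ℝ) = |a| * Real.exp n := by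
        rw [abs_mul, Real.abs_exp, mul_assoc, ← Real.exp_add]
        congr 2
        rw [Nat.cast_sub (by omega)]
        ring
      refine ⟨⟨by simp only; omega, by simp only; omega⟩, ?_, p, ?_⟩
      · simp only
        rw [e2]; exact h5
      · simp only
        rw [e1, e2]; exact h6
    · intro n hn m hm hnm
      have h2 := hgt n hn
      have h3 := hgt m hm
      simp only at hnm
      omega

end Pool.Agent.T3H29.EN
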