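import Mathlib

/-!
# Places where the digits of a large real number are not constant
-/

set_option autoImplicit false

namespace Pool.Agent.T3H29.EN

open Finset

/-- distance to the nearest integer -/
noncomputable def nd (y : ℝ) : ℝ := |y - round y|

lemma nd_nonneg (y : ℝ) : 0 ≤ nd y := abs_nonneg _

lemma nd_le_half (y : ℝ) : nd y ≤ 1 / 2 := abs_sub_round y

lemma nd_le (y : ℝ) (p : ℤ) : nd y ≤ |y - p| := round_le y p

lemma nd_mul (y : ℝ) (b : ℕ) (h : (b : ℝ) * nd y < 1 / 2) : nd (b * y) = b * nd y := by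
  have h1 : |(b : ℝ) * y - ((b : ℤ) * round y : ℤ)| = b * nd y := by
    unfold nd
    rw [← abs_of_nonneg (Nat.cast_nonneg b : (0 : ℝ) ≤ b), ← abs_mul,
      abs_of_nonneg (Nat.cast_nonneg b : (0 : ℝ) ≤ b)]
    congr 1
    push_cast
    ring
  have h2 : |(b : ℝ) * y - round ((b : ℝ) * y)| ≤ 1 / 2 := abs_sub_round _
  have h3 : round ((b : ℝ) * y) = (b : ℤ) * round y := by
    by_contra hne
    have h4 : (1 : ℝ) ≤ |((round ((b : ℝ) * y) : ℤ) : ℝ) - (((b : ℤ) * round y : ℤ) : ℝ)| := by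
      rw [← Int.cast_sub, ← Int.cast_abs]
      have : (1 : ℤ) ≤ |round ((b : ℝ) * y) - (b : ℤ) * round y| := Int.one_le_abs (sub_ne_zero.2 hne)
      exact_mod_cast this
    have h5 := abs_sub_le ((round ((b : ℝ) * y) : ℤ) : ℝ) ((b : ℝ) * y) (((b : ℤ) * round y : ℤ) : ℝ)
    have h6 : |((round ((b : ℝ) * y) : ℤ) : ℝ) - (b : ℝ) * y| = |(b : ℝ) * y - round ((b : ℝ) * y)| :=
      abs_sub_comm _ _
    rw [h6, h1] at h5
    linarith
  unfold nd at h1 ⊢
  rw [h3]
  exact h1

/-- going down -/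
lemma descent (b : ℕ → ℕ) (B : ℕ) (hb : ∀ j, 2 ≤ b j ∧ b j ≤ B) (q : ℕ → ℝ)
    (hq : ∀ j, q j = ∏ i ∈ range j, (b i : ℝ)) (t : ℝ) (i k : ℕ) (hik : i ≤ k)
    (h : ∀ j, i < j → j ≤ k → nd (t / q j) < 1 / (2 * B)) :
    nd (t / q i) = q k / q i * nd (t / q k) := by
  have hq0 : ∀ j, 0 < q j := by
    intro j
    rw [hq]
    exact prod_pos (fun i _ => by have := (hb i).1; positivity)
  have hBpos : (0 : ℝ) < B := by
    have h1 := (hb 0).1.trans (hb 0).2
    have : 0 < B := by omega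
    exact_mod_cast this
  have key : ∀ m : ℕ, ∀ i' : ℕ, i' + m = k → i ≤ i' → nd (t / q i') = q k / q i' * nd (t / q k) := by
    intro m
    induction m with
    | zero =>
      intro i' h1 _
      have : i' = k := by omega
      subst this
      rw [div_self (hq0 _).ne', one_mul]
    | succ m ih =>
      intro i' h1 h2
      have h3 := ih (i' + 1) (by omega) (by omega)
      have h4 := h (i' + 1) (by omega) (by omega)
      have h5 : q (i' + 1) = q i' * b i' := by rw [hq, hq, prod_range_succ]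
      have hb0 : (0 : ℝ) < b i' := by have := (hb i').1; positivity
      have h6 : t / q i' = b i' * (t / q (i' + 1)) := by
        rw [h5]
        have := (hq0 i').ne'
        field_simp
      have h7 : (b i' : ℝ) * nd (t / q (i' + 1)) < 1 / 2 := by
        have h8 : (b i' : ℝ) ≤ B := by exact_mod_cast (hb i').2
        calc (b i' : ℝ) * nd (t / q (i' + 1)) ≤ B * nd (t / q (i' + 1)) :=
              mul_le_mul_of_nonneg_right h8 (nd_nonneg _)
          _ < B * (1 / (2 * B)) := mul_lt_mul_of_pos_left h4 hBpos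
          _ = 1 / 2 := by field_simp
      rw [h6, nd_mul _ _ h7, h3, h5]
      have := (hq0 i').ne'
      field_simp
  exact key (k - i) i (by omega) le_rfl

/-- a place in `(i, k]` -/
lemma exists_place (b : ℕ → ℕ) (B : ℕ) (hb : ∀ j, 2 ≤ b j ∧ b j ≤ B) (q : ℕ → ℝ)
    (hq : ∀ j, q j = ∏ i ∈ range j, (b i : ℝ)) (t : ℝ) (i k : ℕ) (hik : i ≤ k)
    (h : 1 / 2 < q k / q i * nd (t / q k)) : ∃ j, i < j ∧ j ≤ k ∧ 1 / (2 * (B : ℝ)) ≤ nd (t / q j) := by
  by_contra hcon
  push Not at hcon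
  have h1 := descent b B hb q hq t i k hik (fun j h2 h3 => hcon j h2 h3)
  have h2 := nd_le_half (t / q i)
  linarith

/-- many places, one in each block of a grid -/
lemma many_places (b : ℕ → ℕ) (B : ℕ) (hb : ∀ j, 2 ≤ b j ∧ b j ≤ B) (q : ℕ → ℝ)
    (hq : ∀ j, q j = ∏ i ∈ range j, (b i : ℝ)) (t : ℝ) (J : ℕ) (g : ℕ → ℕ)
    (hg : ∀ r < J, g r ≤ g (r + 1))
    (h : ∀ r < J, 1 / 2 < q (g (r + 1)) / q (g r) * nd (t / q (g (r + 1)))) (K : ℕ) (hK : g J ≤ K) :
    J ≤ ((range K).filter (fun j => 1 / (2 * (B : ℝ)) ≤ nd (t / q (j + 1)))).card := by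
  have hex : ∀ r : ℕ, ∃ j, r < J → (g r < j ∧ j ≤ g (r + 1) ∧ 1 / (2 * (B : ℝ)) ≤ nd (t / q j)) := by
    intro r
    by_cases hr : r < J
    · obtain ⟨j, hj⟩ := exists_place b B hb q hq t (g r) (g (r + 1)) (hg r hr) (h r hr)
      exact ⟨j, fun _ => hj⟩
    · exact ⟨0, fun h => absurd h hr⟩
  choose f hf using hex
  have hmono : ∀ r s : ℕ, r ≤ s → s ≤ J → g r ≤ g s := by
    intro r s hrs
    induction s, hrs using Nat.le_induction with
    | base => intro _; exact le_rfl
    | succ s _ ih => intro h2; exact (ih (by omega)).trans (hg s (by omega))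
  have hlt : ∀ r s : ℕ, r < s → s < J → f r < f s := by
    intro r s hrs hs
    have h1 := (hf r (by omega)).2.1
    have h2 := (hf s hs).1
    have h3 := hmono (r + 1) s hrs (by omega)
    omega
  have hinj : Set.InjOn (fun r => f r - 1) (range J : Finset ℕ) := by
    intro r hr s hs hrs
    rw [coe_range, Set.mem_Iio] at hr hs
    simp only at hrs
    have h1 := (hf r hr).1
    have h2 := (hf s hs).1
    by_contra hne
    rcases lt_or_gt_of_ne hne with h3 | h3
    · have := hlt r s h3 hs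
      omega
    · have := hlt s r h3 hr
      omega
  calc J = (range J).card := (card_range J).symm
    _ ≤ _ := by
      apply card_le_card_of_injOn (fun r => f r - 1) _ hinj
      intro r hr
      rw [coe_range, Set.mem_Iio] at hr
      rw [mem_coe, mem_filter, mem_range]
      obtain ⟨h1, h2, h3⟩ := hf r hr
      have h4 := hmono (r + 1) J hr le_rfl
      have h5 : f r - 1 + 1 = f r := by omega
      refine ⟨by simp only; omega, ?_⟩
      simp only
      rw [h5]
      exact h3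

/-- the grid: the least `j` with `E ≤ q j` -/
lemma exists_grid (b : ℕ → ℕ) (B : ℕ) (hb : ∀ j, 2 ≤ b j ∧ b j ≤ B) (q : ℕ → ℝ)
    (hq : ∀ j, q j = ∏ i ∈ range j, (b i : ℝ)) (E : ℝ) (hE : 1 ≤ E) :
    ∃ j, E ≤ q j ∧ q j ≤ B * E := by
  have hq0 : ∀ j, 0 < q j := by
    intro j
    rw [hq]
    exact prod_pos (fun i _ => by have := (hb i).1; positivity)
  have hB1 : (1 : ℝ) ≤ B := by
    have h1 := (hb 0).1.trans (hb 0).2
    have : 1 ≤ B := by omega
    exact_mod_cast this
  have hpow : ∀ j, (2 : ℝ) ^ j ≤ q j := by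
    intro j
    rw [hq]
    calc (2 : ℝ) ^ j = ∏ _i ∈ range j, (2 : ℝ) := by rw [prod_const, card_range]
      _ ≤ _ := prod_le_prod (fun _ _ => by norm_num) (fun i _ => by exact_mod_cast (hb i).1)
  have hex : ∃ j, E ≤ q j := by
    obtain ⟨j, hj⟩ := pow_unbounded_of_one_lt E (one_lt_two : (1 : ℝ) < 2)
    exact ⟨j, hj.le.trans (hpow j)⟩
  classical
  refine ⟨Nat.find hex, Nat.find_spec hex, ?_⟩
  rcases Nat.eq_zero_or_pos (Nat.find hex) with h0 | h0
  · rw [h0, hq, range_zero, prod_empty]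
    nlinarith
  · obtain ⟨k, hk⟩ : ∃ k, Nat.find hex = k + 1 := ⟨Nat.find hex - 1, by omega⟩
    have h1 : q k < E := by
      have := Nat.find_min hex (m := k) (by omega)
      push Not at this
      exact this
    have h5 : q (k + 1) = q k * b k := by rw [hq, hq, prod_range_succ]
    rw [hk, h5]
    have h6 : (b k : ℝ) ≤ B := by exact_mod_cast (hb k).2
    calc q k * b k ≤ E * B := mul_le_mul h1.le h6 (Nat.cast_nonneg _) (by linarith)
      _ = B * E := mul_comm _ _

end Pool.Agent.T3H29.EN
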