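import Pool.Agent.T3H29.EN.Blk
import Pool.Agent.H469R2.NK.KL

/-!
# Characteristic functions of random series with independent digits
-/

set_option autoImplicit false

namespace Pool.Agent.T3H29.EN

open Finset MeasureTheory ProbabilityTheory Filter Topology
open Pool.Agent.H469R2.NK (e)

lemma e_re (x : ℝ) : (e x).re = Real.cos (2 * Real.pi * x) := by
  unfold e; rw [Complex.exp_ofReal_mul_I_re]

lemma e_im (x : ℝ) : (e x).im = Real.sin (2 * Real.pi * x) := by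
  unfold e; rw [Complex.exp_ofReal_mul_I_im]

lemma norm_e' (x : ℝ) : ‖e x‖ = 1 := by
  unfold e; rw [Complex.norm_exp_ofReal_mul_I]

lemma e_cont : Continuous e := by
  unfold e
  fun_prop

lemma e_add' (x y : ℝ) : e (x + y) = e x * e y := by
  unfold e
  rw [← Complex.exp_add]
  congr 1
  push_cast
  ring

lemma e_sum {ι : Type*} (s : Finset ι) (f : ι → ℝ) : e (∑ i ∈ s, f i) = ∏ i ∈ s, e (f i) := by
  classical
  induction s using Finset.induction_on with
  | empty => simp [e]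
  | insert a s ha ih => rw [sum_insert ha, prod_insert ha, e_add', ih]

lemma cos_le (θ : ℝ) : Real.cos (2 * Real.pi * θ) ≤ 1 - 8 * nd θ ^ 2 := by
  have hpi := Real.pi_pos
  set u : ℝ := θ - round θ with hu
  have hnd : nd θ = |u| := rfl
  have h1 : Real.cos (2 * Real.pi * θ) = Real.cos (2 * (Real.pi * |u|)) := by
    have h2 : Real.cos (2 * Real.pi * θ) = Real.cos (2 * Real.pi * u) := by
      have : 2 * Real.pi * u = 2 * Real.pi * θ - round θ * (2 * Real.pi) := by rw [hu]; ring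
      rw [this, Real.cos_sub_int_mul_two_pi]
    rw [h2, ← Real.cos_abs]
    congr 1
    rw [abs_mul, abs_of_pos (by positivity : (0 : ℝ) < 2 * Real.pi)]
    ring
  have h3 : |u| ≤ 1 / 2 := nd_le_half θ
  have h4 : 2 * |u| ≤ Real.sin (Real.pi * |u|) := by
    have := Real.mul_le_sin (x := Real.pi * |u|) (by positivity) (by nlinarith [abs_nonneg u])
    calc 2 * |u| = 2 / Real.pi * (Real.pi * |u|) := by field_simp
      _ ≤ _ := this
  rw [h1, Real.cos_two_mul, Real.cos_sq', hnd]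
  nlinarith [abs_nonneg u]

lemma two_point (p p' x y : ℝ) (hp : 0 ≤ p) (hp' : 0 ≤ p') (hS : p + p' ≤ 1) :
    ‖(p : ℂ) * e x + (p' : ℂ) * e y‖ ≤ p + p' - 8 * (p * p') * nd (x - y) ^ 2 := by
  have h0 : nd (x - y) ≤ 1 / 2 := nd_le_half _
  have h0' := nd_nonneg (x - y)
  set d := nd (x - y) with hd
  have hd2 : d ^ 2 ≤ 1 / 4 := by nlinarith
  have hpp : 0 ≤ p * p' := mul_nonneg hp hp'
  have hc : 8 * (p * p') * d ^ 2 ≤ (p + p') := by
    have h1 : 4 * (p * p') ≤ (p + p') ^ 2 := by nlinarith [sq_nonneg (p - p')]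
    have h2 : (p + p') ^ 2 ≤ p + p' := by nlinarith
    nlinarith
  have hsq : ‖(p : ℂ) * e x + (p' : ℂ) * e y‖ ^ 2 = p ^ 2 + p' ^ 2 + 2 * (p * p') *
      Real.cos (2 * Real.pi * (x - y)) := by
    rw [Complex.sq_norm, Complex.normSq_apply, Complex.add_re, Complex.add_im, Complex.re_ofReal_mul,
      Complex.re_ofReal_mul, Complex.im_ofReal_mul, Complex.im_ofReal_mul, e_re, e_re, e_im, e_im]
    have h1 : 2 * Real.pi * (x - y) = 2 * Real.pi * x - 2 * Real.pi * y := by ring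
    rw [h1, Real.cos_sub]
    have h2 := Real.sin_sq_add_cos_sq (2 * Real.pi * x)
    have h3 := Real.sin_sq_add_cos_sq (2 * Real.pi * y)
    linear_combination (p ^ 2) * h2 + (p' ^ 2) * h3
  have hcos := cos_le (x - y)
  rw [← hd] at hcos
  have h4 : ‖(p : ℂ) * e x + (p' : ℂ) * e y‖ ^ 2 ≤ (p + p' - 8 * (p * p') * d ^ 2) ^ 2 := by
    rw [hsq]
    have h5 : 2 * (p * p') * Real.cos (2 * Real.pi * (x - y)) ≤ 2 * (p * p') * (1 - 8 * d ^ 2) :=
      mul_le_mul_of_nonneg_left hcos (by positivity)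
    have h6 : 0 ≤ (1 - (p + p')) * (16 * (p * p') * d ^ 2) := by
      apply mul_nonneg (by linarith) (by positivity)
    nlinarith [sq_nonneg (8 * (p * p') * d ^ 2)]
  exact le_of_sq_le_sq h4 (by linarith)

lemma nd_int_mul (k : ℤ) (y : ℝ) : nd (k * y) ≤ |(k : ℝ)| * nd y := by
  have := nd_le (k * y) (k * round y)
  refine this.trans (le_of_eq ?_)
  unfold nd
  rw [← abs_mul]
  congr 1
  push_cast
  ring

variable {Ω : Type*} [MeasurableSpace Ω]

/-- the bound for one digit -/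
noncomputable def rho (B : ℕ) (κ : ℝ) : ℝ :=
  1 - 8 * (κ / (2 * B + 1) ^ 2) * (1 / (2 * B * (2 * B).factorial)) ^ 2

lemma rho_lt (B : ℕ) (hB : 1 ≤ B) (κ : ℝ) (hκ : 0 < κ) : rho B κ < 1 := by
  unfold rho
  have h1 : (0 : ℝ) < B := by exact_mod_cast hB
  have h2 : (0 : ℝ) < (2 * B).factorial := by exact_mod_cast Nat.factorial_pos _
  have : 0 < 8 * (κ / (2 * (B : ℝ) + 1) ^ 2) * (1 / (2 * B * (2 * B).factorial)) ^ 2 := by positivity
  linarith

lemma digit_expand (μ : Measure Ω) [IsProbabilityMeasure μ] (Y : Ω → ℤ) (hY : Measurable Y) (B : ℕ)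
    (hB : ∀ ω, |Y ω| ≤ B) (f : ℤ → ℂ) :
    ∫ ω, f (Y ω) ∂μ = ∑ v ∈ Icc (-(B : ℤ)) B, (μ.real {ω | Y ω = v} : ℂ) * f v := by
  have h1 : ∀ ω, f (Y ω) = ∑ v ∈ Icc (-(B : ℤ)) B, Set.indicator {ω | Y ω = v} (fun _ => f v) ω := by
    intro ω
    rw [sum_eq_single (Y ω)]
    · simp
    · intro v _ hv
      exact Set.indicator_of_notMem (fun h => hv h.symm) _
    · intro h
      exact absurd (mem_Icc.2 (abs_le.1 (hB ω))) h
  simp_rw [h1]
  rw [integral_finsetSum]
  · apply sum_congr rfl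
    intro v _
    have hms : MeasurableSet {ω | Y ω = v} := hY (measurableSet_singleton v)
    rw [integral_indicator_const _ hms, Complex.real_smul]
  · intro v _
    exact (integrable_const _).indicator (hY (measurableSet_singleton v))

lemma digit_sum (μ : Measure Ω) [IsProbabilityMeasure μ] (Y : Ω → ℤ) (hY : Measurable Y) (B : ℕ)
    (hB : ∀ ω, |Y ω| ≤ B) : ∑ v ∈ Icc (-(B : ℤ)) B, μ.real {ω | Y ω = v} = 1 := by
  have h := digit_expand μ Y hY B hB (fun _ => 1)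
  simp only [integral_const, probReal_univ, one_smul, mul_one] at h
  have h2 : ((∑ v ∈ Icc (-(B : ℤ)) B, μ.real {ω | Y ω = v} : ℝ) : ℂ) = ((1 : ℝ) : ℂ) := by
    push_cast
    exact h.symm
  exact_mod_cast h2

lemma digit_bound (μ : Measure Ω) [IsProbabilityMeasure μ] (Y : Ω → ℤ) (hY : Measurable Y) (B : ℕ)
    (hB1 : 1 ≤ B) (κ : ℝ) (hκ : 0 < κ)
    (hB : ∀ ω, |Y ω| ≤ B) (hv : ∀ v : ℤ, μ.real {ω | Y ω = v} ≤ 1 - κ) (s : ℝ)
    (hs : 1 / (2 * (B : ℝ)) ≤ nd ((2 * B).factorial * s)) :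
    ‖∫ ω, e (s * Y ω) ∂μ‖ ≤ rho B κ := by
  classical
  set I := Icc (-(B : ℤ)) B with hI
  set p : ℤ → ℝ := fun v => μ.real {ω | Y ω = v} with hp
  have hp0 : ∀ v, 0 ≤ p v := fun v => measureReal_nonneg
  have hsum : ∑ v ∈ I, p v = 1 := digit_sum μ Y hY B hB
  have hcard : (I.card : ℝ) = 2 * B + 1 := by
    rw [hI, Int.card_Icc]
    have : (((B : ℤ) + 1 - -(B : ℤ)).toNat) = 2 * B + 1 := by omega
    rw [this]; push_cast; ring
  have hB0 : (0 : ℝ) < B := by exact_mod_cast hB1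
  have hC0 : (0 : ℝ) < 2 * B + 1 := by positivity
  -- a frequent value
  obtain ⟨v, hvI, hv1⟩ : ∃ v ∈ I, 1 / (2 * (B : ℝ) + 1) ≤ p v := by
    by_contra hcon
    push Not at hcon
    have hne : I.Nonempty := ⟨0, by rw [hI, mem_Icc]; constructor <;> omega⟩
    have h1 : ∑ v ∈ I, p v < ∑ _v ∈ I, 1 / (2 * (B : ℝ) + 1) := sum_lt_sum_of_nonempty hne hcon
    rw [hsum, sum_const, nsmul_eq_mul, hcard, mul_one_div_cancel hC0.ne'] at h1
    exact lt_irrefl _ h1
  -- a second value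
  obtain ⟨w, hwI, hwv, hw1⟩ : ∃ w ∈ I, w ≠ v ∧ κ / (2 * (B : ℝ) + 1) ≤ p w := by
    by_contra hcon
    push Not at hcon
    have h0 : ∑ u ∈ I.erase v, p u = 1 - p v := by
      have := add_sum_erase I p hvI
      linarith
    have h1 : κ ≤ ∑ u ∈ I.erase v, p u := by rw [h0]; linarith [hv v]
    have h2 : ∑ u ∈ I.erase v, p u ≤ ∑ _u ∈ I.erase v, κ / (2 * (B : ℝ) + 1) := by
      apply sum_le_sum
      intro u hu
      rw [mem_erase] at hu
      exact (hcon u hu.2 hu.1).le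
    rw [sum_const, nsmul_eq_mul, card_erase_of_mem hvI] at h2
    have h3 : ((I.card - 1 : ℕ) : ℝ) < 2 * B + 1 := by
      have hc1 : 1 ≤ I.card := card_pos.2 ⟨v, hvI⟩
      rw [Nat.cast_sub hc1, hcard]; norm_num
    have h4 : ((I.card - 1 : ℕ) : ℝ) * (κ / (2 * (B : ℝ) + 1)) < (2 * B + 1) * (κ / (2 * (B : ℝ) + 1)) :=
      mul_lt_mul_of_pos_right h3 (by positivity)
    rw [mul_div_cancel₀ _ hC0.ne'] at h4
    linarith
  have hexp : ∫ ω, e (s * Y ω) ∂μ = ∑ v ∈ I, (p v : ℂ) * e (s * v) :=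
    digit_expand μ Y hY B hB (fun v => e (s * v))
  have hw' : w ∈ I.erase v := mem_erase.2 ⟨hwv, hwI⟩
  have hsplit : ∑ u ∈ I, (p u : ℂ) * e (s * u) = ((p v : ℂ) * e (s * v) + (p w : ℂ) * e (s * w)) +
      ∑ u ∈ (I.erase v).erase w, (p u : ℂ) * e (s * u) := by
    rw [← add_sum_erase I _ hvI, ← add_sum_erase (I.erase v) _ hw']
    ring
  have hsplit2 : 1 = (p v + p w) + ∑ u ∈ (I.erase v).erase w, p u := by
    rw [← hsum, ← add_sum_erase I _ hvI, ← add_sum_erase (I.erase v) _ hw']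
    ring
  have hrest : ‖∑ u ∈ (I.erase v).erase w, (p u : ℂ) * e (s * u)‖ ≤ ∑ u ∈ (I.erase v).erase w, p u := by
    refine (norm_sum_le _ _).trans (sum_le_sum fun u _ => ?_)
    rw [norm_mul, norm_e', mul_one, Complex.norm_real, Real.norm_of_nonneg (hp0 u)]
  have hrest0 : 0 ≤ ∑ u ∈ (I.erase v).erase w, p u := sum_nonneg fun u _ => hp0 u
  have htwo := two_point (p v) (p w) (s * v) (s * w) (hp0 v) (hp0 w) (by linarith)
  -- the distance
  have hfac : (0 : ℝ) < (2 * B).factorial := by exact_mod_cast Nat.factorial_pos _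
  have hnd : 1 / (2 * (B : ℝ) * (2 * B).factorial) ≤ nd (s * v - s * w) := by
    rw [hI, mem_Icc] at hvI hwI
    have hne : v - w ≠ 0 := sub_ne_zero.2 (Ne.symm hwv)
    have hdvd : (v - w) ∣ ((2 * B).factorial : ℤ) := by
      rw [← Int.natAbs_dvd]
      apply Int.natCast_dvd_natCast.2
      apply Nat.dvd_factorial
      · exact Int.natAbs_pos.2 hne
      · omega
    obtain ⟨k, hk⟩ := hdvd
    have hkabs : |(k : ℝ)| ≤ (2 * B).factorial := by
      have h1 : (((2 * B).factorial : ℤ) : ℝ) = ((v - w : ℤ) : ℝ) * k := by rw [hk]; push_cast; ring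
      have h2 : (1 : ℝ) ≤ |((v - w : ℤ) : ℝ)| := by
        have : (1 : ℤ) ≤ |v - w| := Int.one_le_abs hne
        exact_mod_cast this
      have h3 : ((2 * B).factorial : ℝ) = |((v - w : ℤ) : ℝ)| * |(k : ℝ)| := by
        rw [← abs_mul, ← h1]
        simp
      rw [h3]
      nlinarith [abs_nonneg (k : ℝ)]
    have h4 : ((2 * B).factorial : ℝ) * s = k * (s * v - s * w) := by
      have h1 : ((2 * B).factorial : ℝ) = ((v : ℝ) - w) * k := by
        have : (((2 * B).factorial : ℤ) : ℝ) = (((v - w) * k : ℤ) : ℝ) := by rw [hk]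
        push_cast at this
        exact this
      rw [h1]; ring
    rw [h4] at hs
    have h5 := nd_int_mul k (s * v - s * w)
    have h6 : 1 / (2 * (B : ℝ)) ≤ (2 * B).factorial * nd (s * v - s * w) :=
      (hs.trans h5).trans (mul_le_mul_of_nonneg_right hkabs (nd_nonneg _))
    calc 1 / (2 * (B : ℝ) * (2 * B).factorial) = (1 / (2 * (B : ℝ))) / (2 * B).factorial := by
          field_simp
      _ ≤ _ := by rw [div_le_iff₀ hfac]; linarith
  rw [hexp, hsplit]
  refine (norm_add_le _ _).trans ?_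
  have h7 : κ / (2 * (B : ℝ) + 1) ^ 2 ≤ p v * p w := by
    calc κ / (2 * (B : ℝ) + 1) ^ 2 = (1 / (2 * (B : ℝ) + 1)) * (κ / (2 * (B : ℝ) + 1)) := by
          field_simp
      _ ≤ p v * p w := mul_le_mul hv1 hw1 (by positivity) (hp0 v)
  have h8 : (1 / (2 * (B : ℝ) * (2 * B).factorial)) ^ 2 ≤ nd (s * v - s * w) ^ 2 :=
    pow_le_pow_left₀ (by positivity) hnd 2
  have h9 : 8 * (κ / (2 * (B : ℝ) + 1) ^ 2) * (1 / (2 * B * (2 * B).factorial)) ^ 2 ≤
      8 * (p v * p w) * nd (s * v - s * w) ^ 2 := by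
    apply mul_le_mul _ h8 (by positivity) (by have := mul_nonneg (hp0 v) (hp0 w); positivity)
    linarith
  unfold rho
  linarith

lemma digit_le_one (μ : Measure Ω) [IsProbabilityMeasure μ] (f : Ω → ℂ) (hf : ∀ ω, ‖f ω‖ ≤ 1) :
    ‖∫ ω, f ω ∂μ‖ ≤ 1 := by
  have := norm_integral_le_of_norm_le_const (μ := μ) (f := f) (C := 1) (Eventually.of_forall hf)
  simpa using this

/-- finite partial sums -/
lemma char_fin (μ : Measure Ω) [IsProbabilityMeasure μ] (X : ℕ → Ω → ℤ) (hX : ∀ j, Measurable (X j))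
    (hind : iIndepFun X μ) (B : ℕ) (hB1 : 1 ≤ B) (κ : ℝ) (hκ : 0 < κ) (hκ1 : 0 ≤ rho B κ)
    (hB : ∀ j ω, |X j ω| ≤ B) (hv : ∀ j (v : ℤ), μ.real {ω | X j ω = v} ≤ 1 - κ)
    (q : ℕ → ℝ) (t : ℝ) (K : ℕ) :
    ‖∫ ω, e (t * ∑ j ∈ range K, (X j ω : ℝ) / q (j + 1)) ∂μ‖ ≤
      rho B κ ^ ((range K).filter (fun j => 1 / (2 * (B : ℝ)) ≤
        nd ((2 * B).factorial * t / q (j + 1)))).card := by
  classical
  have h1 : ∀ ω, e (t * ∑ j ∈ range K, (X j ω : ℝ) / q (j + 1)) =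
      ∏ i : Fin K, e (t / q ((i : ℕ) + 1) * X i ω) := by
    intro ω
    rw [mul_sum, e_sum, ← Fin.prod_univ_eq_prod_range (fun j => e (t * ((X j ω : ℝ) / q (j + 1))))]
    apply prod_congr rfl
    intro i _
    congr 1
    ring
  simp_rw [h1]
  have hind' : iIndepFun (fun i : Fin K => X i) μ := hind.precomp Fin.val_injective
  have h2 := hind'.integral_fun_prod_comp (f := fun (i : Fin K) (v : ℤ) => e (t / q ((i : ℕ) + 1) * v))
    (fun i => (hX i).aemeasurable) (fun i => (Measurable.of_discrete).aestronglyMeasurable)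
  rw [h2, norm_prod, Fin.prod_univ_eq_prod_range (fun j => ‖∫ ω, e (t / q (j + 1) * X j ω) ∂μ‖)]
  calc ∏ j ∈ range K, ‖∫ ω, e (t / q (j + 1) * X j ω) ∂μ‖
      ≤ ∏ j ∈ range K, (if 1 / (2 * (B : ℝ)) ≤ nd ((2 * B).factorial * t / q (j + 1)) then rho B κ else 1) := by
        apply prod_le_prod (fun _ _ => norm_nonneg _)
        intro j _
        split_ifs with hj
        · apply digit_bound μ (X j) (hX j) B hB1 κ hκ (hB j) (hv j)
          rw [mul_div_assoc] at hj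
          exact hj
        · exact digit_le_one μ _ (fun ω => (norm_e' _).le)
    _ = _ := by rw [prod_ite, prod_const, prod_const_one, mul_one]

/-- the random series -/
noncomputable def ser (X : ℕ → Ω → ℤ) (q : ℕ → ℝ) (ω : Ω) : ℝ := ∑' j, (X j ω : ℝ) / q (j + 1)

lemma ser_summable (X : ℕ → Ω → ℤ) (q : ℕ → ℝ) (B : ℕ) (hB : ∀ j ω, |X j ω| ≤ B)
    (hq : ∀ j, (2 : ℝ) ^ j ≤ q j) (ω : Ω) : Summable (fun j => (X j ω : ℝ) / q (j + 1)) := by
  apply Summable.of_norm_bounded (g := fun j : ℕ => (B : ℝ) * (1 / 2) ^ j)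
    ((summable_geometric_of_lt_one (by norm_num) (by norm_num)).mul_left _)
  intro j
  have h1 : |(X j ω : ℝ)| ≤ B := by
    have := hB j ω
    exact_mod_cast this
  have h2 : (0 : ℝ) < 2 ^ j := by positivity
  have h3 : (2 : ℝ) ^ j ≤ q (j + 1) := by
    refine le_trans ?_ (hq (j + 1))
    rw [pow_succ]; linarith
  rw [Real.norm_eq_abs, abs_div, abs_of_pos (lt_of_lt_of_le h2 h3)]
  calc |(X j ω : ℝ)| / q (j + 1) ≤ B / 2 ^ j := div_le_div₀ (Nat.cast_nonneg _) h1 h2 h3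
    _ = B * (1 / 2) ^ j := by rw [one_div, inv_pow]; rfl

lemma ser_measurable (X : ℕ → Ω → ℤ) (hX : ∀ j, Measurable (X j)) (q : ℕ → ℝ) (B : ℕ)
    (hB : ∀ j ω, |X j ω| ≤ B) (hq : ∀ j, (2 : ℝ) ^ j ≤ q j) : Measurable (ser X q) := by
  have h : ∀ ω, Tendsto (fun K => ∑ j ∈ range K, (X j ω : ℝ) / q (j + 1)) atTop (𝓝 (ser X q ω)) :=
    fun ω => (ser_summable X q B hB hq ω).hasSum.tendsto_sum_nat
  apply measurable_of_tendsto_metrizable (f := fun K ω => ∑ j ∈ range K, (X j ω : ℝ) / q (j + 1))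
  · intro K
    apply Finset.measurable_fun_sum
    intro j _
    exact ((Measurable.of_discrete (f := fun v : ℤ => (v : ℝ))).comp (hX j)).div_const _
  · exact tendsto_pi_nhds.2 h

theorem char_ser (μ : Measure Ω) [IsProbabilityMeasure μ] (X : ℕ → Ω → ℤ) (hX : ∀ j, Measurable (X j))
    (hind : iIndepFun X μ) (B : ℕ) (hB1 : 1 ≤ B) (κ : ℝ) (hκ : 0 < κ) (hκ1 : 0 ≤ rho B κ)
    (hB : ∀ j ω, |X j ω| ≤ B) (hv : ∀ j (v : ℤ), μ.real {ω | X j ω = v} ≤ 1 - κ)
    (q : ℕ → ℝ) (hq : ∀ j, (2 : ℝ) ^ j ≤ q j) (t : ℝ) (K J : ℕ)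
    (hJ : J ≤ ((range K).filter (fun j => 1 / (2 * (B : ℝ)) ≤
        nd ((2 * B).factorial * t / q (j + 1)))).card) :
    ‖∫ ω, e (t * ser X q ω) ∂μ‖ ≤ rho B κ ^ J := by
  have hρ1 : rho B κ ≤ 1 := (rho_lt B hB1 κ hκ).le
  have hlim : Tendsto (fun K' => ∫ ω, e (t * ∑ j ∈ range K', (X j ω : ℝ) / q (j + 1)) ∂μ) atTop
      (𝓝 (∫ ω, e (t * ser X q ω) ∂μ)) := by
    apply tendsto_integral_of_dominated_convergence (fun _ => (1 : ℝ))
    · intro K'
      apply Measurable.aestronglyMeasurable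
      apply e_cont.measurable.comp
      apply Measurable.const_mul
      apply Finset.measurable_fun_sum
      intro j _
      exact ((Measurable.of_discrete (f := fun v : ℤ => (v : ℝ))).comp (hX j)).div_const _
    · exact integrable_const _
    · intro K'
      exact Eventually.of_forall fun ω => (norm_e' _).le
    · apply Eventually.of_forall
      intro ω
      exact (e_cont.tendsto _).comp
        (((ser_summable X q B hB hq ω).hasSum.tendsto_sum_nat).const_mul t)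
  apply le_of_tendsto hlim.norm
  filter_upwards [eventually_ge_atTop K] with K' hK'
  refine (char_fin μ X hX hind B hB1 κ hκ hκ1 hB hv q t K').trans ?_
  apply pow_le_pow_of_le_one hκ1 hρ1
  refine hJ.trans (card_le_card ?_)
  apply filter_subset_filter
  exact range_subset_range.2 hK'

end Pool.Agent.T3H29.EN
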