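import Pool.Agent.T3H29.EN.Bad
import Pool.Agent.T3H29.EN.Chr

/-!
# Second moments of the sums over `M < n ≤ 2 M`
-/

set_option autoImplicit false

namespace Pool.Agent.T3H29.EN

open Finset MeasureTheory ProbabilityTheory Filter Topology
open Pool.Agent.H469R2.NK (e conj_e)

universe u
variable {Ω : Type u} [MeasurableSpace Ω]

/-- independent bounded nondegenerate digits in the scale `b` -/
structure Dig (μ : Measure Ω) (B : ℕ) (κ : ℝ) (b : ℕ → ℕ) (X : ℕ → Ω → ℤ) : Prop where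
  hb : ∀ j, 2 ≤ b j ∧ b j ≤ B
  meas : ∀ j, Measurable (X j)
  ind : iIndepFun X μ
  bd : ∀ j ω, |X j ω| ≤ B
  nd : ∀ j (v : ℤ), μ.real {ω | X j ω = v} ≤ 1 - κ

/-- the products -/
noncomputable def qq (b : ℕ → ℕ) (j : ℕ) : ℝ := ∏ i ∈ range j, (b i : ℝ)

/-- the characteristic function -/
noncomputable def psi (μ : Measure Ω) (b : ℕ → ℕ) (X : ℕ → Ω → ℤ) (t : ℝ) : ℂ :=
  ∫ ω, e (t * ser X (qq b) ω) ∂μ

lemma qq_pow (b : ℕ → ℕ) (hb : ∀ j, 2 ≤ b j) (j : ℕ) : (2 : ℝ) ^ j ≤ qq b j := by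
  unfold qq
  calc (2 : ℝ) ^ j = ∏ _i ∈ range j, (2 : ℝ) := by rw [prod_const, card_range]
    _ ≤ _ := prod_le_prod (fun _ _ => by norm_num) (fun i _ => by exact_mod_cast hb i)

lemma qq_pos (b : ℕ → ℕ) (hb : ∀ j, 2 ≤ b j) (j : ℕ) : 0 < qq b j :=
  lt_of_lt_of_le (by positivity) (qq_pow b hb j)

lemma qq_mono (b : ℕ → ℕ) (hb : ∀ j, 2 ≤ b j) : StrictMono (qq b) := by
  apply strictMono_nat_of_lt_succ
  intro j
  have h1 : qq b (j + 1) = qq b j * b j := by unfold qq; rw [prod_range_succ]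
  have h2 := qq_pos b hb j
  have h3 : (2 : ℝ) ≤ b j := by exact_mod_cast hb j
  rw [h1]
  nlinarith

lemma psi_le_one (μ : Measure Ω) [IsProbabilityMeasure μ] (b : ℕ → ℕ) (X : ℕ → Ω → ℤ) (t : ℝ) :
    ‖psi μ b X t‖ ≤ 1 := digit_le_one μ _ (fun _ => (norm_e' _).le)

lemma psi_neg (μ : Measure Ω) (b : ℕ → ℕ) (X : ℕ → Ω → ℤ) (t : ℝ) :
    ‖psi μ b X (-t)‖ = ‖psi μ b X t‖ := by
  have h : psi μ b X (-t) = (starRingEnd ℂ) (psi μ b X t) := by
    unfold psi
    rw [← integral_conj]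
    congr 1
    funext ω
    rw [conj_e, neg_mul]
  rw [h, Complex.norm_conj]

lemma good_n (b : ℕ → ℕ) (B : ℕ) (hb : ∀ j, 2 ≤ b j ∧ b j ≤ B) (M J : ℕ) (δ : ℝ) (hδ : 0 < δ)
    (hJ : 16 * δ * J ≤ 1) (h1 : (B : ℝ) ≤ Real.exp (δ * M)) (h2 : 1 + Real.log B ≤ 5 * (M : ℝ) / 8)
    (a : ℝ) (ha1 : Real.exp (-((M : ℝ) / 8)) ≤ |a|) (ha2 : |a| ≤ Real.exp ((M : ℝ) / 8)) :
    ∃ a' : ℕ → ℝ, (∀ r, a' r ≠ 0) ∧ ∀ n ∈ Ioc M (2 * M), (∀ r ∈ Icc 1 J, ¬ BadE (a' r) δ n) →
      ∃ K, J ≤ ((range K).filter (fun j => 1 / (2 * (B : ℝ)) ≤ nd (a * Real.exp n / qq b (j + 1)))).card := by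
  have hb2 : ∀ j, 2 ≤ b j := fun j => (hb j).1
  have hB1 : 1 ≤ B := by have := (hb 0).1.trans (hb 0).2; omega
  have hB1' : (1 : ℝ) ≤ B := by exact_mod_cast hB1
  have hB0 : (0 : ℝ) < B := by linarith
  have hM0 : (0 : ℝ) ≤ M := Nat.cast_nonneg _
  have hgrid := fun r : ℕ => exists_grid b B hb (qq b) (fun _ => rfl) (Real.exp (4 * δ * M * r))
    (Real.one_le_exp (by positivity))
  choose g hg1 hg2 using hgrid
  have hq0 := qq_pos b hb2
  have hstep : ∀ r : ℕ, B * Real.exp (4 * δ * M * r) ≤ Real.exp (4 * δ * M * (r + 1 : ℕ)) := by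
    intro r
    have e1 : Real.exp (4 * δ * M * (r + 1 : ℕ)) = Real.exp (4 * (δ * M)) * Real.exp (4 * δ * M * r) := by
      rw [← Real.exp_add]; congr 1; push_cast; ring
    rw [e1]
    apply mul_le_mul_of_nonneg_right _ (Real.exp_pos _).le
    refine h1.trans (Real.exp_le_exp.2 ?_)
    have : 0 ≤ δ * M := by positivity
    linarith
  have ha0 : a ≠ 0 := by
    intro h
    rw [h, abs_zero] at ha1
    exact absurd ha1 (not_le.2 (Real.exp_pos _))
  refine ⟨fun r => a / qq b (g r), fun r => div_ne_zero ha0 (hq0 _).ne', ?_⟩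
  intro n hn hbad
  rw [mem_Ioc] at hn
  have hnM : (M : ℝ) ≤ n := by exact_mod_cast hn.1.le
  have hn2M : (n : ℝ) ≤ 2 * M := by exact_mod_cast hn.2
  refine ⟨g J, many_places b B hb (qq b) (fun _ => rfl) (a * Real.exp n) J g ?_ ?_ (g J) le_rfl⟩
  · intro r _
    apply (qq_mono b hb2).le_iff_le.1
    exact ((hg2 r).trans (hstep r)).trans (hg1 (r + 1))
  · intro r hr
    have hb1 := hbad (r + 1) (mem_Icc.2 ⟨by omega, by omega⟩)
    have hQ := hq0 (g (r + 1))
    set Q := qq b (g (r + 1)) with hQd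
    have hr1 : ((r + 1 : ℕ) : ℝ) ≤ J := by exact_mod_cast hr
    have hQ1 : Q ≤ B * Real.exp ((M : ℝ) / 4) := by
      refine (hg2 (r + 1)).trans ?_
      apply mul_le_mul_of_nonneg_left _ hB0.le
      apply Real.exp_le_exp.2
      have h3 : 4 * δ * ((r + 1 : ℕ) : ℝ) ≤ 1 / 4 := by
        have := mul_le_mul_of_nonneg_left hr1 (by positivity : (0 : ℝ) ≤ 4 * δ)
        linarith
      calc 4 * δ * M * ((r + 1 : ℕ) : ℝ) = (4 * δ * ((r + 1 : ℕ) : ℝ)) * M := by ring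
        _ ≤ 1 / 4 * M := mul_le_mul_of_nonneg_right h3 hM0
        _ = (M : ℝ) / 4 := by ring
    have hQge1 : 1 ≤ Q := le_trans (Real.one_le_exp (by positivity)) (hg1 (r + 1))
    have habs : |a / Q| = |a| / Q := by rw [abs_div, abs_of_pos hQ]
    have hup : |a / Q| * Real.exp n ≤ Real.exp (3 * M) := by
      rw [habs]
      calc |a| / Q * Real.exp n ≤ |a| * Real.exp n :=
            mul_le_mul_of_nonneg_right (div_le_self (abs_nonneg _) hQge1) (Real.exp_pos _).le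
        _ ≤ Real.exp ((M : ℝ) / 8) * Real.exp (2 * M) :=
            mul_le_mul ha2 (Real.exp_le_exp.2 hn2M) (Real.exp_pos _).le (Real.exp_pos _).le
        _ = Real.exp ((M : ℝ) / 8 + 2 * M) := (Real.exp_add _ _).symm
        _ ≤ _ := Real.exp_le_exp.2 (by linarith)
    have hlow : Real.exp 1 ≤ |a / Q| * Real.exp n := by
      rw [habs, div_mul_eq_mul_div, le_div_iff₀ hQ]
      have hlogB : (B : ℝ) = Real.exp (Real.log B) := (Real.exp_log hB0).symm
      calc Real.exp 1 * Q ≤ Real.exp 1 * (B * Real.exp ((M : ℝ) / 4)) :=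
            mul_le_mul_of_nonneg_left hQ1 (Real.exp_pos _).le
        _ = Real.exp (1 + (Real.log B + (M : ℝ) / 4)) := by
            conv_lhs => rw [hlogB]
            rw [Real.exp_add, Real.exp_add]
        _ ≤ Real.exp (-((M : ℝ) / 8) + M) := Real.exp_le_exp.2 (by linarith)
        _ = Real.exp (-((M : ℝ) / 8)) * Real.exp M := Real.exp_add _ _
        _ ≤ |a| * Real.exp n := mul_le_mul ha1 (Real.exp_le_exp.2 hnM) (Real.exp_pos _).le (abs_nonneg _)
    have hpos : 0 < |a / Q| * Real.exp n := lt_of_lt_of_le (Real.exp_pos _) hlow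
    have hnd : (|a / Q| * Real.exp n) ^ (-δ) ≤ nd (a * Real.exp n / Q) := by
      by_contra hcon
      push Not at hcon
      apply hb1
      refine ⟨hlow, round (a * Real.exp n / Q), ?_⟩
      have e1 : a / Q * Real.exp n = a * Real.exp n / Q := by ring
      rw [e1]
      exact hcon
    have hnd2 : Real.exp (-(3 * δ * M)) ≤ nd (a * Real.exp n / Q) := by
      refine le_trans ?_ hnd
      have h3 : (Real.exp (3 * M)) ^ (-δ) ≤ (|a / Q| * Real.exp n) ^ (-δ) :=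
        Real.rpow_le_rpow_of_nonpos hpos hup (by linarith)
      refine le_trans (le_of_eq ?_) h3
      rw [← Real.exp_mul]
      congr 1
      ring
    have hratio : Real.exp (4 * δ * M) / B ≤ Q / qq b (g r) := by
      rw [div_le_div_iff₀ hB0 (hq0 _)]
      calc Real.exp (4 * δ * M) * qq b (g r) ≤ Real.exp (4 * δ * M) * (B * Real.exp (4 * δ * M * r)) :=
            mul_le_mul_of_nonneg_left (hg2 r) (Real.exp_pos _).le
        _ = Real.exp (4 * δ * M * (r + 1 : ℕ)) * B := by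
            have : Real.exp (4 * δ * M * (r + 1 : ℕ)) = Real.exp (4 * δ * M) * Real.exp (4 * δ * M * r) := by
              rw [← Real.exp_add]; congr 1; push_cast; ring
            rw [this]; ring
        _ ≤ Q * B := mul_le_mul_of_nonneg_right (hg1 (r + 1)) hB0.le
    calc (1 : ℝ) / 2 < 1 := by norm_num
      _ ≤ Real.exp (δ * M) / B := by rw [le_div_iff₀ hB0]; linarith
      _ = Real.exp (4 * δ * M) / B * Real.exp (-(3 * δ * M)) := by
          rw [div_mul_eq_mul_div, ← Real.exp_add]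
          congr 2
          ring
      _ ≤ Q / qq b (g r) * nd (a * Real.exp n / Q) :=
          mul_le_mul hratio hnd2 (Real.exp_pos _).le (div_pos hQ (hq0 _)).le

lemma psi_sum (A : ℝ)
    (hbad : ∀ δ a : ℝ, 0 < δ → δ ≤ 1 → a ≠ 0 → ∀ N : ℕ, 1 ≤ N → ∀ s : Finset ℕ,
      (∀ n ∈ s, n ∈ Icc 1 N ∧ BadE a δ n) → (s.card : ℝ) ≤ A / δ * (N : ℝ) ^ (1 - δ ^ 2 / 12800))
    (μ : Measure Ω) [IsProbabilityMeasure μ] (B : ℕ) (κ : ℝ) (hκ : 0 < κ) (hρ : 0 ≤ rho B κ)
    (b : ℕ → ℕ) (X : ℕ → Ω → ℤ) (h : Dig μ B κ b X) (M J : ℕ) (hM : 1 ≤ M) (δ : ℝ) (hδ : 0 < δ)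
    (hδ1 : δ ≤ 1)
    (hJ : 16 * δ * J ≤ 1) (h1 : (B : ℝ) ≤ Real.exp (δ * M)) (h2 : 1 + Real.log B ≤ 5 * (M : ℝ) / 8)
    (a : ℝ) (ha1 : Real.exp (-((M : ℝ) / 8)) ≤ |(2 * B).factorial * a|)
    (ha2 : |(2 * B).factorial * a| ≤ Real.exp ((M : ℝ) / 8)) :
    ∑ n ∈ Ioc M (2 * M), ‖psi μ b X (a * Real.exp n)‖ ≤
      M * rho B κ ^ J + J * (A / δ * ((2 * M : ℕ) : ℝ) ^ (1 - δ ^ 2 / 12800)) := by
  classical
  have hB1 : 1 ≤ B := by have := (h.hb 0).1.trans (h.hb 0).2; omega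
  obtain ⟨a', ha', hgood⟩ := good_n b B h.hb M J δ hδ hJ h1 h2 _ ha1 ha2
  obtain ⟨T, hT⟩ : ∃ T : Finset ℕ, ∀ n, n ∈ T ↔ n ∈ Ioc M (2 * M) ∧ ∃ r ∈ Icc 1 J, BadE (a' r) δ n :=
    ⟨(Ioc M (2 * M)).filter (fun n => ∃ r ∈ Icc 1 J, BadE (a' r) δ n), fun n => by simp only [mem_filter]⟩
  have hTcard : (T.card : ℝ) ≤ J * (A / δ * ((2 * M : ℕ) : ℝ) ^ (1 - δ ^ 2 / 12800)) := by
    have hsub : T ⊆ (Icc 1 J).biUnion (fun r => (Ioc M (2 * M)).filter (fun n => BadE (a' r) δ n)) := by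
      intro n hn
      obtain ⟨hn1, r, hr, hn2⟩ := (hT n).1 hn
      rw [mem_biUnion]
      exact ⟨r, hr, mem_filter.2 ⟨hn1, hn2⟩⟩
    have h3 : (T.card : ℝ) ≤ ∑ r ∈ Icc 1 J, (((Ioc M (2 * M)).filter (fun n => BadE (a' r) δ n)).card : ℝ) := by
      have := (card_le_card hsub).trans card_biUnion_le
      exact_mod_cast this
    refine h3.trans ?_
    calc ∑ r ∈ Icc 1 J, (((Ioc M (2 * M)).filter (fun n => BadE (a' r) δ n)).card : ℝ)
        ≤ ∑ _r ∈ Icc 1 J, (A / δ * ((2 * M : ℕ) : ℝ) ^ (1 - δ ^ 2 / 12800)) := by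
          apply sum_le_sum
          intro r _
          apply hbad δ (a' r) hδ hδ1 (ha' r) (2 * M) (by omega)
          intro n hn
          rw [mem_filter, mem_Ioc] at hn
          exact ⟨mem_Icc.2 ⟨by omega, hn.1.2⟩, hn.2⟩
      _ = _ := by rw [sum_const, nsmul_eq_mul, Nat.card_Icc]; simp
  have hTsub : T ⊆ Ioc M (2 * M) := fun n hn => ((hT n).1 hn).1
  rw [← sum_sdiff hTsub]
  have hA : ∑ n ∈ T, ‖psi μ b X (a * Real.exp n)‖ ≤ T.card := by
    calc _ ≤ ∑ _n ∈ T, (1 : ℝ) := sum_le_sum (fun n _ => psi_le_one μ b X _)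
      _ = T.card := by simp
  have hB : ∑ n ∈ Ioc M (2 * M) \ T,
      ‖psi μ b X (a * Real.exp n)‖ ≤ M * rho B κ ^ J := by
    calc _ ≤ ∑ _n ∈ Ioc M (2 * M) \ T, rho B κ ^ J := by
          apply sum_le_sum
          intro n hn
          obtain ⟨hn1, hn2⟩ := Finset.mem_sdiff.1 hn
          have hn3 : ∀ r ∈ Icc 1 J, ¬ BadE (a' r) δ n := by
            intro r hr hcon
            exact hn2 ((hT n).2 ⟨hn1, r, hr, hcon⟩)
          obtain ⟨K, hK⟩ := hgood n hn1 hn3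
          unfold psi
          apply char_ser μ X h.meas h.ind B hB1 κ hκ hρ h.bd h.nd (qq b)
            (qq_pow b (fun j => (h.hb j).1)) _ K J
          convert hK using 5
          ring
      _ ≤ M * rho B κ ^ J := by
          rw [sum_const, nsmul_eq_mul]
          apply mul_le_mul_of_nonneg_right _ (pow_nonneg hρ _)
          have := card_le_card (sdiff_subset : Ioc M (2 * M) \ T ⊆ Ioc M (2 * M))
          rw [Nat.card_Ioc] at this
          have h3 : 2 * M - M = M := by omega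
          rw [h3] at this
          exact_mod_cast this
  linarith

/-- the sums -/
noncomputable def SS (z : ℕ → ℂ) (β x : ℝ) (s : Finset ℕ) : ℂ := ∑ n ∈ s, z n * e (β * Real.exp n * x)

lemma norm_SS_le (z : ℕ → ℂ) (hz : ∀ n, ‖z n‖ ≤ 1) (β x : ℝ) (s : Finset ℕ) : ‖SS z β x s‖ ≤ s.card := by
  unfold SS
  calc _ ≤ ∑ n ∈ s, ‖z n * e (β * Real.exp n * x)‖ := norm_sum_le _ _
    _ ≤ ∑ _n ∈ s, (1 : ℝ) := by
        apply sum_le_sum
        intro n _
        rw [norm_mul, norm_e', mul_one]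
        exact hz n
    _ = s.card := by simp

lemma sq_expand (z : ℕ → ℂ) (β x : ℝ) (s : Finset ℕ) :
    ((‖SS z β x s‖ ^ 2 : ℝ) : ℂ) = ∑ n ∈ s, ∑ m ∈ s, z n * (starRingEnd ℂ) (z m) *
      e (β * (Real.exp n - Real.exp m) * x) := by
  rw [Complex.ofReal_pow, ← Complex.mul_conj']
  unfold SS
  rw [map_sum, sum_mul_sum]
  refine sum_congr rfl fun n _ => sum_congr rfl fun m _ => ?_
  rw [map_mul, conj_e]
  have : β * (Real.exp n - Real.exp m) * x = β * Real.exp n * x + -(β * Real.exp m * x) := by ring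
  rw [this, e_add']
  ring

lemma second_aux (μ : Measure Ω) [IsProbabilityMeasure μ] (B : ℕ) (κ : ℝ)
    (b : ℕ → ℕ) (X : ℕ → Ω → ℤ) (h : Dig μ B κ b X) (z : ℕ → ℂ) (hz : ∀ n, ‖z n‖ ≤ 1) (β : ℝ)
    (s : Finset ℕ) :
    ∫ ω, ‖SS z β (ser X (qq b) ω) s‖ ^ 2 ∂μ ≤
      ∑ n ∈ s, ∑ m ∈ s, ‖psi μ b X (β * (Real.exp n - Real.exp m))‖ := by
  have hser := ser_measurable X h.meas (qq b) B h.bd (qq_pow b (fun j => (h.hb j).1))
  have hint : ∀ t : ℝ, Integrable (fun ω => e (t * ser X (qq b) ω)) μ := by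
    intro t
    apply Integrable.of_bound (C := 1)
    · exact (e_cont.measurable.comp (hser.const_mul t)).aestronglyMeasurable
    · exact Eventually.of_forall fun ω => (norm_e' _).le
  have h1 : ((∫ ω, ‖SS z β (ser X (qq b) ω) s‖ ^ 2 ∂μ : ℝ) : ℂ) =
      ∑ n ∈ s, ∑ m ∈ s, z n * (starRingEnd ℂ) (z m) * psi μ b X (β * (Real.exp n - Real.exp m)) := by
    rw [← integral_complex_ofReal]
    have h2 : ∀ ω, ((‖SS z β (ser X (qq b) ω) s‖ ^ 2 : ℝ) : ℂ) =
        ∑ n ∈ s, ∑ m ∈ s, z n * (starRingEnd ℂ) (z m) *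
          e (β * (Real.exp n - Real.exp m) * ser X (qq b) ω) := fun ω => sq_expand z β _ s
    have h3 : (fun ω => ((‖SS z β (ser X (qq b) ω) s‖ ^ 2 : ℝ) : ℂ)) =
        fun ω => ∑ n ∈ s, ∑ m ∈ s, z n * (starRingEnd ℂ) (z m) *
          e (β * (Real.exp n - Real.exp m) * ser X (qq b) ω) := by
      funext ω
      exact h2 ω
    rw [h3, integral_finsetSum]
    · apply sum_congr rfl
      intro n _
      rw [integral_finsetSum]
      · apply sum_congr rfl
        intro m _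
        rw [integral_const_mul]
        rfl
      · intro m _
        exact (hint _).const_mul _
    · intro n _
      apply integrable_finsetSum
      intro m _
      exact (hint _).const_mul _
  have h4 : ∫ ω, ‖SS z β (ser X (qq b) ω) s‖ ^ 2 ∂μ ≤
      ‖((∫ ω, ‖SS z β (ser X (qq b) ω) s‖ ^ 2 ∂μ : ℝ) : ℂ)‖ := by
    rw [Complex.norm_real]
    exact le_abs_self _
  refine h4.trans ?_
  rw [h1]
  refine (norm_sum_le _ _).trans (sum_le_sum fun n _ => (norm_sum_le _ _).trans (sum_le_sum fun m _ => ?_))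
  rw [norm_mul, norm_mul, Complex.norm_conj]
  have h5 : ‖z n‖ * ‖z m‖ ≤ 1 := mul_le_one₀ (hz n) (norm_nonneg _) (hz m)
  calc ‖z n‖ * ‖z m‖ * ‖psi μ b X (β * (Real.exp n - Real.exp m))‖
      ≤ 1 * ‖psi μ b X (β * (Real.exp n - Real.exp m))‖ := mul_le_mul_of_nonneg_right h5 (norm_nonneg _)
    _ = _ := one_mul _

/-- the double sum over a part of `(M, 2M]` -/
lemma double_le (F : ℕ → ℕ → ℝ) (G : ℕ → ℕ → ℝ) (M : ℕ) (s : Finset ℕ) (hs : s ⊆ Ioc M (2 * M))
    (hG : ∀ l n, 0 ≤ G l n)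
    (hdiag : ∀ n, F n n ≤ 1) (hsymm : ∀ n m, F n m = F m n)
    (hF : ∀ n m, m < n → F n m ≤ G (n - m) n) :
    ∑ n ∈ s, ∑ m ∈ s, F n m ≤ M + 2 * ∑ l ∈ Icc 1 M, ∑ n ∈ Ioc M (2 * M), G l n := by
  classical
  have hlow : ∑ n ∈ s, ∑ m ∈ s.filter (fun m => m < n), F n m ≤
      ∑ l ∈ Icc 1 M, ∑ n ∈ Ioc M (2 * M), G l n := by
    rw [sum_comm (s := Icc 1 M)]
    calc ∑ n ∈ s, ∑ m ∈ s.filter (fun m => m < n), F n m
        ≤ ∑ n ∈ s, ∑ l ∈ Icc 1 M, G l n := by
          apply sum_le_sum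
          intro n hn
          have hn' := mem_Ioc.1 (hs hn)
          calc ∑ m ∈ s.filter (fun m => m < n), F n m ≤ ∑ m ∈ s.filter (fun m => m < n), G (n - m) n := by
                apply sum_le_sum
                intro m hm
                exact hF n m (mem_filter.1 hm).2
            _ = ∑ l ∈ (s.filter (fun m => m < n)).image (fun m => n - m), G l n := by
                rw [sum_image]
                intro m hm m' hm' hmm
                rw [mem_coe, mem_filter] at hm hm'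
                simp only at hmm
                omega
            _ ≤ _ := by
                apply sum_le_sum_of_subset_of_nonneg
                · intro l hl
                  rw [mem_image] at hl
                  obtain ⟨m, hm, rfl⟩ := hl
                  rw [mem_filter] at hm
                  have hm' := mem_Ioc.1 (hs hm.1)
                  rw [mem_Icc]
                  omega
                · intro l _ _
                  exact hG l n
      _ ≤ _ := sum_le_sum_of_subset_of_nonneg hs (fun n _ _ => sum_nonneg fun l _ => hG l n)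
  have hup : ∑ n ∈ s, ∑ m ∈ s.filter (fun m => n < m), F n m ≤
      ∑ l ∈ Icc 1 M, ∑ n ∈ Ioc M (2 * M), G l n := by
    refine le_trans (le_of_eq ?_) hlow
    simp_rw [sum_filter]
    rw [sum_comm]
    refine sum_congr rfl fun n _ => sum_congr rfl fun m _ => ?_
    rw [hsymm m n]
  have hd : ∑ n ∈ s, ∑ m ∈ s.filter (fun m => m = n), F n m ≤ M := by
    calc ∑ n ∈ s, ∑ m ∈ s.filter (fun m => m = n), F n m ≤ ∑ _n ∈ s, (1 : ℝ) := by
          apply sum_le_sum
          intro n hn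
          rw [sum_filter, sum_ite_eq' s n (fun m => F n m), if_pos hn]
          exact hdiag n
      _ = s.card := by simp
      _ ≤ M := by
          have := card_le_card hs
          rw [Nat.card_Ioc] at this
          have h3 : 2 * M - M = M := by omega
          rw [h3] at this
          exact_mod_cast this
  have hsplit : ∀ n, ∑ m ∈ s, F n m = ∑ m ∈ s.filter (fun m => m < n), F n m +
      ∑ m ∈ s.filter (fun m => m = n), F n m + ∑ m ∈ s.filter (fun m => n < m), F n m := by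
    intro n
    simp_rw [sum_filter]
    rw [← sum_add_distrib, ← sum_add_distrib]
    apply sum_congr rfl
    intro m _
    rcases lt_trichotomy m n with h1 | h1 | h1
    · rw [if_pos h1, if_neg (by omega), if_neg (by omega)]; ring
    · rw [if_neg (by omega), if_pos h1, if_neg (by omega)]; ring
    · rw [if_neg (by omega), if_neg (by omega), if_pos h1]; ring
  calc ∑ n ∈ s, ∑ m ∈ s, F n m = ∑ n ∈ s, ∑ m ∈ s.filter (fun m => m < n), F n m +
      ∑ n ∈ s, ∑ m ∈ s.filter (fun m => m = n), F n m +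
      ∑ n ∈ s, ∑ m ∈ s.filter (fun m => n < m), F n m := by
        rw [← sum_add_distrib, ← sum_add_distrib]
        exact sum_congr rfl fun n _ => hsplit n
    _ ≤ _ := by linarith

theorem second (A : ℝ)
    (hbad : ∀ δ a : ℝ, 0 < δ → δ ≤ 1 → a ≠ 0 → ∀ N : ℕ, 1 ≤ N → ∀ s : Finset ℕ,
      (∀ n ∈ s, n ∈ Icc 1 N ∧ BadE a δ n) → (s.card : ℝ) ≤ A / δ * (N : ℝ) ^ (1 - δ ^ 2 / 12800))
    (μ : Measure Ω) [IsProbabilityMeasure μ] (B : ℕ) (κ : ℝ) (hκ : 0 < κ) (hρ : 0 ≤ rho B κ)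
    (b : ℕ → ℕ) (X : ℕ → Ω → ℤ) (h : Dig μ B κ b X) (M J : ℕ) (hM : 1 ≤ M) (δ : ℝ) (hδ : 0 < δ)
    (hδ1 : δ ≤ 1)
    (hJ : 16 * δ * J ≤ 1) (h1 : (B : ℝ) ≤ Real.exp (δ * M)) (h2 : 1 + Real.log B ≤ 5 * (M : ℝ) / 8)
    (h3 : ((2 * B).factorial : ℝ) ≤ Real.exp ((M : ℝ) / 16)) (h4 : 16 ≤ M)
    (z : ℕ → ℂ) (hz : ∀ n, ‖z n‖ ≤ 1) (β : ℝ)
    (hβ1 : Real.exp (-((M : ℝ) / 16)) ≤ |β|) (hβ2 : |β| ≤ Real.exp ((M : ℝ) / 16))
    (s : Finset ℕ) (hs : s ⊆ Ioc M (2 * M)) :
    ∫ ω, ‖SS z β (ser X (qq b) ω) s‖ ^ 2 ∂μ ≤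
      M + 2 * (M * (M * rho B κ ^ J + J * (A / δ * ((2 * M : ℕ) : ℝ) ^ (1 - δ ^ 2 / 12800)))) := by
  refine (second_aux μ B κ b X h z hz β s).trans ?_
  refine (double_le _ (fun l n => ‖psi μ b X (β * (1 - Real.exp (-(l : ℝ))) * Real.exp n)‖) M s hs
    (fun _ _ => norm_nonneg _) (fun n => psi_le_one μ b X _) ?_ ?_).trans ?_
  · intro n m
    rw [← psi_neg]
    congr 2
    ring
  · intro n m hnm
    apply le_of_eq
    congr 2
    have : Real.exp m = Real.exp (-((n - m : ℕ) : ℝ)) * Real.exp n := by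
      rw [← Real.exp_add, Nat.cast_sub hnm.le]
      congr 1
      ring
    rw [this]
    ring
  · have hfac : (1 : ℝ) ≤ (2 * B).factorial := by exact_mod_cast Nat.factorial_pos _
    have hM16 : (16 : ℝ) ≤ M := by exact_mod_cast h4
    have h5 : ∑ l ∈ Icc 1 M, ∑ n ∈ Ioc M (2 * M), ‖psi μ b X (β * (1 - Real.exp (-(l : ℝ))) * Real.exp n)‖ ≤
        ∑ _l ∈ Icc 1 M, (M * rho B κ ^ J + J * (A / δ * ((2 * M : ℕ) : ℝ) ^ (1 - δ ^ 2 / 12800))) := by
      apply sum_le_sum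
      intro l hl
      rw [mem_Icc] at hl
      have hl1 : (1 : ℝ) ≤ l := by exact_mod_cast hl.1
      have hel : Real.exp (-(l : ℝ)) ≤ 1 / 2 := by
        rw [Real.exp_neg, one_div]
        apply inv_anti₀ (by norm_num)
        have := Real.add_one_le_exp (l : ℝ)
        linarith
      have hel0 := Real.exp_pos (-(l : ℝ))
      have habs : |((2 * B).factorial : ℝ) * (β * (1 - Real.exp (-(l : ℝ))))| =
          (2 * B).factorial * (|β| * (1 - Real.exp (-(l : ℝ)))) := by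
        rw [abs_mul, abs_mul, abs_of_pos (by linarith : 0 < 1 - Real.exp (-(l : ℝ))),
          abs_of_nonneg (by linarith : (0 : ℝ) ≤ (2 * B).factorial)]
      apply psi_sum A hbad μ B κ hκ hρ b X h M J hM δ hδ hδ1 hJ h1 h2
      · rw [habs]
        have h6 : Real.exp (-((M : ℝ) / 8)) ≤ Real.exp (-((M : ℝ) / 16)) * (1 / 2) := by
          have h7 : Real.exp (-((M : ℝ) / 8)) = Real.exp (-((M : ℝ) / 16)) * Real.exp (-((M : ℝ) / 16)) := by
            rw [← Real.exp_add]; congr 1; ring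
          rw [h7]
          apply mul_le_mul_of_nonneg_left _ (Real.exp_pos _).le
          rw [Real.exp_neg, one_div]
          apply inv_anti₀ (by norm_num)
          have := Real.add_one_le_exp ((M : ℝ) / 16)
          linarith
        calc Real.exp (-((M : ℝ) / 8)) ≤ Real.exp (-((M : ℝ) / 16)) * (1 / 2) := h6
          _ ≤ |β| * (1 - Real.exp (-(l : ℝ))) :=
              mul_le_mul hβ1 (by linarith) (by norm_num) (abs_nonneg _)
          _ = 1 * (|β| * (1 - Real.exp (-(l : ℝ)))) := (one_mul _).symm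
          _ ≤ _ := mul_le_mul_of_nonneg_right hfac (mul_nonneg (abs_nonneg _) (by linarith))
      · rw [habs]
        have h7 : Real.exp ((M : ℝ) / 8) = Real.exp ((M : ℝ) / 16) * Real.exp ((M : ℝ) / 16) := by
          rw [← Real.exp_add]; congr 1; ring
        rw [h7]
        apply mul_le_mul h3 _ (mul_nonneg (abs_nonneg _) (by linarith)) (Real.exp_pos _).le
        calc |β| * (1 - Real.exp (-(l : ℝ))) ≤ |β| * 1 :=
              mul_le_mul_of_nonneg_left (by linarith) (abs_nonneg _)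
          _ = |β| := mul_one _
          _ ≤ _ := hβ2
    rw [sum_const, nsmul_eq_mul, Nat.card_Icc, Nat.add_sub_cancel] at h5
    linarith

end Pool.Agent.T3H29.EN
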