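import Pool.Agent.T3H29.EN.AS
import Pool.Agent.H469R2.NK.Vdc

/-!
# Polynomial phases
-/

set_option autoImplicit false

namespace Pool.Agent.T3H29.EN

open Finset MeasureTheory ProbabilityTheory Filter Topology
open Pool.Agent.H469R2.NK (e conj_e vdcH)

universe u

/-- the sums with a polynomial phase over `M < n ≤ M + L` -/
noncomputable def TT (z : ℕ → ℂ) (β x : ℝ) (P : Polynomial ℝ) (M L : ℕ) : ℂ :=
  ∑ k ∈ range L, z (M + 1 + k) * e (β * Real.exp ((M + 1 + k : ℕ) : ℝ) * x + P.eval ((M + 1 + k : ℕ) : ℝ))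

lemma TT_const (z : ℕ → ℂ) (β x : ℝ) (P : Polynomial ℝ) (hP : P.natDegree ≤ 0) (M L : ℕ) :
    ‖TT z β x P M L‖ = ‖SS z β x (Ioc M (M + L))‖ := by
  have hC : P = Polynomial.C (P.coeff 0) := Polynomial.eq_C_of_natDegree_le_zero hP
  have h1 : TT z β x P M L = e (P.coeff 0) * SS z β x (Ioc M (M + L)) := by
    unfold TT SS
    have h2 : Ioc M (M + L) = Ico (M + 1) (M + 1 + L) := by
      ext n; rw [mem_Ioc, mem_Ico]; omega
    rw [h2, sum_Ico_eq_sum_range, Nat.add_sub_cancel_left, mul_sum]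
    apply sum_congr rfl
    intro k _
    rw [hC, Polynomial.eval_C, Polynomial.coeff_C_zero, e_add']
    ring
  rw [h1, norm_mul, norm_e', one_mul]

/-- the shifted pair -/
noncomputable def sh (l : ℕ) (p : ℝ × (ℕ → ℂ)) : ℝ × (ℕ → ℂ) :=
  (p.1 * (Real.exp l - 1), fun n => p.2 (n + l) * (starRingEnd ℂ) (p.2 n))

lemma diff_natDegree (P : Polynomial ℝ) (l : ℝ) (k : ℕ) (hP : P.natDegree ≤ k + 1) :
    (P.comp (Polynomial.X + Polynomial.C l) - P).natDegree ≤ k := by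
  rcases Nat.lt_or_ge k P.natDegree with h | h
  · have hk : P.natDegree = k + 1 := by omega
    have hdeg : (P.comp (Polynomial.X + Polynomial.C l)).natDegree = k + 1 := by
      rw [Polynomial.natDegree_comp, Polynomial.natDegree_X_add_C, hk, mul_one]
    have h1 : (P.comp (Polynomial.X + Polynomial.C l)).coeff (k + 1) = P.coeff (k + 1) := by
      have h2 : (P.comp (Polynomial.X + Polynomial.C l)).leadingCoeff = P.leadingCoeff := by
        rw [Polynomial.leadingCoeff_comp (by rw [Polynomial.natDegree_X_add_C]; exact one_ne_zero),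
          Polynomial.leadingCoeff_X_add_C, one_pow, mul_one]
      rw [Polynomial.leadingCoeff, Polynomial.leadingCoeff, hdeg, hk] at h2
      exact h2
    have h3 : (P.comp (Polynomial.X + Polynomial.C l) - P).natDegree ≤ k + 1 := by
      refine (Polynomial.natDegree_sub_le _ _).trans ?_
      rw [hdeg, hk, max_self]
    by_contra hcon
    have h4 : (P.comp (Polynomial.X + Polynomial.C l) - P).natDegree = k + 1 := by omega
    have h5 : (P.comp (Polynomial.X + Polynomial.C l) - P).coeff (k + 1) = 0 := by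
      rw [Polynomial.coeff_sub, h1, sub_self]
    have h6 : (P.comp (Polynomial.X + Polynomial.C l) - P).leadingCoeff = 0 := by
      rw [Polynomial.leadingCoeff, h4, h5]
    rw [Polynomial.leadingCoeff_eq_zero] at h6
    rw [h6] at h4
    simp at h4
  · refine (Polynomial.natDegree_sub_le _ _).trans ?_
    rw [Polynomial.natDegree_comp, Polynomial.natDegree_X_add_C, mul_one, max_self]
    exact h

lemma TT_shift (p : ℝ × (ℕ → ℂ)) (x : ℝ) (P : Polynomial ℝ) (M L l : ℕ) :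
    TT (sh l p).2 (sh l p).1 x (P.comp (Polynomial.X + Polynomial.C (l : ℝ)) - P) M (L - l) =
    ∑ k ∈ range (L - l), (p.2 (M + 1 + (k + l)) * e (p.1 * Real.exp ((M + 1 + (k + l) : ℕ) : ℝ) * x +
        P.eval ((M + 1 + (k + l) : ℕ) : ℝ))) *
      (starRingEnd ℂ) (p.2 (M + 1 + k) * e (p.1 * Real.exp ((M + 1 + k : ℕ) : ℝ) * x +
        P.eval ((M + 1 + k : ℕ) : ℝ))) := by
  unfold TT sh
  apply sum_congr rfl
  intro k _
  simp only
  rw [map_mul, conj_e]
  have h1 : M + 1 + (k + l) = M + 1 + k + l := by ring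
  rw [h1]
  set n := M + 1 + k with hn
  have h2 : p.1 * (Real.exp l - 1) * Real.exp (n : ℝ) * x +
      (P.comp (Polynomial.X + Polynomial.C (l : ℝ)) - P).eval (n : ℝ) =
      (p.1 * Real.exp ((n + l : ℕ) : ℝ) * x + P.eval ((n + l : ℕ) : ℝ)) +
      -(p.1 * Real.exp (n : ℝ) * x + P.eval (n : ℝ)) := by
    rw [Polynomial.eval_sub, Polynomial.eval_comp, Polynomial.eval_add, Polynomial.eval_X, Polynomial.eval_C]
    push_cast
    rw [Real.exp_add]
    ring
  rw [h2, e_add']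
  ring

lemma vdc_step (p : ℝ × (ℕ → ℂ)) (hp : ∀ n, ‖p.2 n‖ ≤ 1) (x : ℝ) (P : Polynomial ℝ) (M L R : ℕ)
    (hR : 1 ≤ R) (hRM : R ≤ M) (hL : L ≤ M) (E : ℝ) (hE : 0 ≤ E)
    (h : ∀ l ∈ Icc 1 R, ∀ L' ≤ M, ‖TT (sh l p).2 (sh l p).1 x
      (P.comp (Polynomial.X + Polynomial.C (l : ℝ)) - P) M L'‖ ≤ E) :
    ‖TT p.2 p.1 x P M L‖ ^ 2 ≤ 2 * M ^ 2 / R + 4 * M * E := by
  have hR0 : (0 : ℝ) < R := by exact_mod_cast hR
  have hRM' : (R : ℝ) ≤ M := by exact_mod_cast hRM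
  have hLM' : (L : ℝ) ≤ M := by exact_mod_cast hL
  have h1 := vdcH (fun k => p.2 (M + 1 + k) * e (p.1 * Real.exp ((M + 1 + k : ℕ) : ℝ) * x +
        P.eval ((M + 1 + k : ℕ) : ℝ))) (fun k => by rw [norm_mul, norm_e', mul_one]; exact hp _) L R
  have h2 : ∑ l ∈ Ico 1 R, ‖∑ n ∈ range (L - l), (p.2 (M + 1 + (n + l)) *
      e (p.1 * Real.exp ((M + 1 + (n + l) : ℕ) : ℝ) * x + P.eval ((M + 1 + (n + l) : ℕ) : ℝ))) *
      (starRingEnd ℂ) (p.2 (M + 1 + n) * e (p.1 * Real.exp ((M + 1 + n : ℕ) : ℝ) * x +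
        P.eval ((M + 1 + n : ℕ) : ℝ)))‖ ≤ R * E := by
    calc _ ≤ ∑ _l ∈ Ico 1 R, E := by
          apply sum_le_sum
          intro l hl
          rw [mem_Ico] at hl
          rw [← TT_shift]
          exact h l (mem_Icc.2 ⟨hl.1, hl.2.le⟩) _ (by omega)
      _ ≤ R * E := by
          rw [sum_const, nsmul_eq_mul, Nat.card_Ico]
          apply mul_le_mul_of_nonneg_right _ hE
          exact_mod_cast Nat.sub_le _ _
  have hTT : TT p.2 p.1 x P M L = ∑ n ∈ range L, (fun k => p.2 (M + 1 + k) *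
      e (p.1 * Real.exp ((M + 1 + k : ℕ) : ℝ) * x + P.eval ((M + 1 + k : ℕ) : ℝ))) n := rfl
  rw [← hTT] at h1
  have h3 : (R : ℝ) * ‖TT p.2 p.1 x P M L‖ ^ 2 ≤ (2 * M) * (M + 2 * (R * E)) := by
    refine h1.trans ?_
    apply mul_le_mul (by linarith) _ (by positivity) (by positivity)
    have := mul_le_mul_of_nonneg_left h2 (by norm_num : (0 : ℝ) ≤ 2)
    linarith
  have h4 : 2 * (M : ℝ) ^ 2 / R + 4 * M * E = ((2 * M) * (M + 2 * (R * E))) / R := by
    field_simp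
    ring
  rw [h4, le_div_iff₀ hR0]
  linarith

/-- iterated square roots of `1 / R` -/
noncomputable def eta (R : ℕ) : ℕ → ℝ
  | 0 => 1 / R
  | k + 1 => Real.sqrt (eta R k)

lemma eta_bounds (R : ℕ) (hR : 1 ≤ R) (k : ℕ) : 0 < eta R k ∧ eta R k ≤ 1 ∧ 1 / (R : ℝ) ≤ eta R k := by
  have hR1 : (1 : ℝ) ≤ R := by exact_mod_cast hR
  induction k with
  | zero =>
    have h0 : eta R 0 = 1 / R := rfl
    rw [h0]
    exact ⟨by positivity, by rw [div_le_one (by linarith)]; exact hR1, le_rfl⟩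
  | succ k ih =>
    have h0 : eta R (k + 1) = Real.sqrt (eta R k) := rfl
    rw [h0]
    obtain ⟨h1, h2, h3⟩ := ih
    refine ⟨Real.sqrt_pos.2 h1, Real.sqrt_le_one.2 h2, h3.trans ?_⟩
    apply Real.le_sqrt_of_sq_le
    nlinarith

lemma eta_le (R : ℕ) (t : ℝ) (ht : 1 / (R : ℝ) ≤ 2 * Real.exp (-t)) (k : ℕ) :
    eta R k ≤ 2 * Real.exp (-(t / 2 ^ k)) := by
  induction k with
  | zero => simpa [eta] using ht
  | succ k ih =>
    have h0 : eta R (k + 1) = Real.sqrt (eta R k) := rfl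
    rw [h0]
    apply Real.sqrt_le_iff.2
    refine ⟨by positivity, ih.trans ?_⟩
    have h1 : (2 * Real.exp (-(t / 2 ^ (k + 1)))) ^ 2 = 4 * Real.exp (-(t / 2 ^ k)) := by
      rw [mul_pow, ← Real.exp_nat_mul]
      have : ((2 : ℕ) : ℝ) * -(t / 2 ^ (k + 1)) = -(t / 2 ^ k) := by
        rw [pow_succ]; push_cast; field_simp
      rw [this]; norm_num
    rw [h1]
    have := Real.exp_pos (-(t / 2 ^ k))
    linarith

open Classical in
/-- the families of shifted pairs -/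
noncomputable def FF (F : Finset (ℝ × (ℕ → ℂ))) (R : ℕ) : ℕ → Finset (ℝ × (ℕ → ℂ))
  | 0 => F
  | k + 1 => (FF F R k ×ˢ Icc 1 R).image (fun q => sh q.2 q.1)

lemma FF_card (F : Finset (ℝ × (ℕ → ℂ))) (R : ℕ) (k : ℕ) : (FF F R k).card ≤ F.card * R ^ k := by
  classical
  induction k with
  | zero => simp [FF]
  | succ k ih =>
    calc (FF F R (k + 1)).card ≤ (FF F R k ×ˢ Icc 1 R).card := card_image_le
      _ = (FF F R k).card * R := by rw [card_product, Nat.card_Icc, Nat.add_sub_cancel]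
      _ ≤ F.card * R ^ k * R := Nat.mul_le_mul_right _ ih
      _ = _ := by ring

lemma FF_shift (F : Finset (ℝ × (ℕ → ℂ))) (R k : ℕ) (p : ℝ × (ℕ → ℂ)) (hp : p ∈ FF F R k) (l : ℕ)
    (hl : l ∈ Icc 1 R) : sh l p ∈ FF F R (k + 1) := by
  classical
  show sh l p ∈ (FF F R k ×ˢ Icc 1 R).image (fun q => sh q.2 q.1)
  rw [mem_image]
  exact ⟨(p, l), mem_product.2 ⟨hp, hl⟩, rfl⟩

lemma FF_bounds (F : Finset (ℝ × (ℕ → ℂ))) (R : ℕ) (a A : ℝ) (ha : 0 ≤ a)
    (hF : ∀ p ∈ F, (∀ n, ‖p.2 n‖ ≤ 1) ∧ a ≤ |p.1| ∧ |p.1| ≤ A) (k : ℕ) :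
    ∀ p ∈ FF F R k, (∀ n, ‖p.2 n‖ ≤ 1) ∧ a ≤ |p.1| ∧ |p.1| ≤ A * Real.exp (k * R) := by
  classical
  induction k with
  | zero => intro p hp; simpa using hF p hp
  | succ k ih =>
    intro p hp
    have hp' : p ∈ (FF F R k ×ˢ Icc 1 R).image (fun q => sh q.2 q.1) := hp
    rw [mem_image] at hp'
    obtain ⟨⟨p', l⟩, hq, rfl⟩ := hp'
    rw [mem_product, mem_Icc] at hq
    obtain ⟨hq1, hq2, hq3⟩ := hq
    obtain ⟨h1, h2, h3⟩ := ih p' hq1
    simp only at hq2 hq3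
    have hl1 : (1 : ℝ) ≤ l := by exact_mod_cast hq2
    have hlR : (l : ℝ) ≤ R := by exact_mod_cast hq3
    have he1 : 1 ≤ Real.exp l - 1 := by
      have := Real.add_one_le_exp (l : ℝ)
      linarith
    have he2 : Real.exp l - 1 ≤ Real.exp R := by
      have := Real.exp_le_exp.2 hlR
      linarith
    refine ⟨?_, ?_, ?_⟩
    · intro n
      show ‖p'.2 (n + l) * (starRingEnd ℂ) (p'.2 n)‖ ≤ 1
      rw [norm_mul, Complex.norm_conj]
      exact mul_le_one₀ (h1 _) (norm_nonneg _) (h1 _)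
    · show a ≤ |p'.1 * (Real.exp l - 1)|
      rw [abs_mul, abs_of_pos (by linarith : 0 < Real.exp l - 1)]
      nlinarith [abs_nonneg p'.1]
    · show |p'.1 * (Real.exp l - 1)| ≤ A * Real.exp ((k + 1 : ℕ) * R)
      rw [abs_mul, abs_of_pos (by linarith : 0 < Real.exp l - 1)]
      have e1 : A * Real.exp ((k + 1 : ℕ) * R) = A * Real.exp (k * R) * Real.exp R := by
        rw [mul_assoc, ← Real.exp_add]
        congr 2
        push_cast; ring
      rw [e1]
      exact mul_le_mul h3 he2 (by linarith) (le_trans (abs_nonneg _) h3)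

/-- the induction over the degree -/
lemma poly_block (F : Finset (ℝ × (ℕ → ℂ))) (R M D : ℕ) (hR : 1 ≤ R) (hRM : R ≤ M) (x : ℝ)
    (hF : ∀ p ∈ F, ∀ n, ‖p.2 n‖ ≤ 1)
    (h : ∀ p ∈ FF F R D, ∀ L ≤ M, ‖SS p.2 p.1 x (Ioc M (M + L))‖ ≤ 3 * ((M : ℝ) / R)) (k : ℕ) :
    ∀ j, j + k = D → ∀ p ∈ FF F R j, ∀ P : Polynomial ℝ, P.natDegree ≤ k → ∀ L ≤ M,
      ‖TT p.2 p.1 x P M L‖ ≤ 5 * (M * eta R k) := by
  have hM0 : (0 : ℝ) ≤ M := Nat.cast_nonneg _
  have hb : ∀ j, ∀ p ∈ FF F R j, ∀ n, ‖p.2 n‖ ≤ 1 := by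
    intro j
    classical
    induction j with
    | zero => exact hF
    | succ j ih =>
      intro p hp
      have hp' : p ∈ (FF F R j ×ˢ Icc 1 R).image (fun q => sh q.2 q.1) := hp
      rw [mem_image] at hp'
      obtain ⟨⟨p', l⟩, hq, rfl⟩ := hp'
      rw [mem_product] at hq
      intro n
      show ‖p'.2 (n + l) * (starRingEnd ℂ) (p'.2 n)‖ ≤ 1
      rw [norm_mul, Complex.norm_conj]
      exact mul_le_one₀ (ih p' hq.1 _) (norm_nonneg _) (ih p' hq.1 _)
  induction k with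
  | zero =>
    intro j hj p hp P hP L hL
    have hjD : j = D := by omega
    subst hjD
    rw [TT_const _ _ _ _ hP]
    refine (h p hp L hL).trans ?_
    have h0 : eta R 0 = 1 / R := rfl
    rw [h0]
    have : 0 ≤ (M : ℝ) / R := by positivity
    calc 3 * ((M : ℝ) / R) ≤ 5 * (M / R) := by linarith
      _ = _ := by ring
  | succ k ih =>
    intro j hj p hp P hP L hL
    obtain ⟨he0, he1, he2⟩ := eta_bounds R hR k
    have h1 := vdc_step p (hb j p hp) x P M L R hR hRM hL (5 * (M * eta R k)) (by positivity) (by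
      intro l hl L' hL'
      exact ih (j + 1) (by omega) (sh l p) (FF_shift F R j p hp l hl) _ (diff_natDegree P l k hP) L' hL')
    have h0 : eta R (k + 1) = Real.sqrt (eta R k) := rfl
    have hs : Real.sqrt (eta R k) ^ 2 = eta R k := Real.sq_sqrt he0.le
    have hs0 : 0 ≤ Real.sqrt (eta R k) := Real.sqrt_nonneg _
    rw [h0]
    apply le_of_sq_le_sq _ (by positivity)
    refine h1.trans ?_
    rw [mul_pow, mul_pow, hs]
    have h2 : 2 * (M : ℝ) ^ 2 / R ≤ 2 * M ^ 2 * eta R k := by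
      rw [mul_div_assoc, mul_assoc, div_eq_mul_one_div]
      apply mul_le_mul_of_nonneg_left _ (by norm_num)
      exact mul_le_mul_of_nonneg_left he2 (by positivity)
    have h3 : 0 ≤ (M : ℝ) ^ 2 * eta R k := by positivity
    nlinarith

theorem poly_as (B : ℕ) (hB : 1 ≤ B) (κ : ℝ) (hκ : 0 < κ) (hκ1 : κ ≤ 1) (D : ℕ) :
    ∃ c : ℝ, 0 < c ∧ ∃ c' : ℝ, 0 < c' ∧ ∀ (Ω : Type u) [MeasurableSpace Ω] (μ : Measure Ω)
      [IsProbabilityMeasure μ] (b : ℕ → ℕ) (X : ℕ → Ω → ℤ), Dig μ B κ b X →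
      ∀ α : ℝ, α ≠ 0 → ∀ z : ℕ → ℕ → ℂ, (∀ h n, ‖z h n‖ ≤ 1) →
      ∀ᵐ ω ∂μ, ∀ᶠ i : ℕ in atTop, ∀ h ∈ Icc 1 (RR c i), ∀ P : Polynomial ℝ, P.natDegree ≤ D →
        ∀ L ≤ 2 ^ i, ‖TT (z h) (h * α) (ser X (qq b) ω) P (2 ^ i) L‖ ≤
          10 * (((2 ^ i : ℕ) : ℝ) * Real.exp (-(c' * cr i))) := by
  classical
  obtain ⟨c, hc0, hc1, hblock⟩ := as_block.{u} B hB κ hκ hκ1 D
  refine ⟨c, hc0, c / 2 ^ D, by positivity, ?_⟩
  intro Ω _ μ _ b X hdig α hα z hz
  set F₀ : ℕ → Finset (ℝ × (ℕ → ℂ)) := fun i =>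
    (Icc 1 (RR c i)).image (fun h : ℕ => ((h : ℝ) * α, z h)) with hF₀
  have hpowreal : Tendsto (fun i : ℕ => ((2 ^ i : ℕ) : ℝ)) atTop atTop :=
    tendsto_natCast_atTop_atTop.comp (tendsto_pow_atTop_atTop_of_one_lt one_lt_two)
  have hα0 : 0 < |α| := abs_pos.2 hα
  obtain ⟨la, hla⟩ : ∃ la : ℝ, la = Real.log |α| := ⟨_, rfl⟩
  -- the sizes
  have hsize : ∀ᶠ i : ℕ in atTop, (RR c i : ℝ) ≤ ((2 ^ i : ℕ) : ℝ) ∧
      (D + 1) * (RR c i : ℝ) + la ≤ ((2 ^ i : ℕ) : ℝ) / 16 := by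
    filter_upwards [cr_tendsto.eventually_ge_atTop 2, cr_tendsto.eventually
      (Real.tendsto_exp_atTop.eventually_ge_atTop (16 * (D + 1 + |la|)))] with i h1 h2
    have hv := cr_cube i
    set v := cr i with hvd
    have h3 : (RR c i : ℝ) ≤ Real.exp v := by
      refine (RR_le c i).trans (Real.exp_le_exp.2 ?_)
      nlinarith
    have h4 : Real.exp v * Real.exp v ≤ ((2 ^ i : ℕ) : ℝ) := by
      rw [← Real.exp_add]
      have h5 : ((2 ^ i : ℕ) : ℝ) = Real.exp ((i : ℝ) * Real.log 2) := by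
        rw [mul_comm, Real.exp_mul, Real.exp_log (by norm_num)]
        push_cast
        rw [Real.rpow_natCast]
      rw [h5]
      apply Real.exp_le_exp.2
      have h6 := Real.log_two_gt_d9
      have h7 : 4 * v ≤ i := by rw [← hv]; nlinarith [sq_nonneg (v - 2)]
      nlinarith
    have h8 : 0 < Real.exp v := Real.exp_pos _
    have h9 : (1 : ℝ) ≤ Real.exp v := Real.one_le_exp (by linarith)
    have h10 := le_abs_self la
    have h11 := abs_nonneg la
    have hD0 : (0 : ℝ) ≤ D := Nat.cast_nonneg _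
    constructor
    · nlinarith
    · have h12 : 16 * (D + 1 + |la|) * Real.exp v ≤ Real.exp v * Real.exp v :=
        mul_le_mul_of_nonneg_right h2 h8.le
      have h13 : (D + 1) * (RR c i : ℝ) ≤ (D + 1) * Real.exp v :=
        mul_le_mul_of_nonneg_left h3 (by linarith)
      have h14 : |la| ≤ |la| * Real.exp v := le_mul_of_one_le_right h11 h9
      rw [le_div_iff₀ (by norm_num)]
      nlinarith
  have hlow : ∀ᶠ i : ℕ in atTop, Real.exp (-(((2 ^ i : ℕ) : ℝ) / 16)) ≤ |α| := by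
    filter_upwards [hpowreal.eventually_ge_atTop (-16 * la)] with i hi
    calc Real.exp (-(((2 ^ i : ℕ) : ℝ) / 16)) ≤ Real.exp la :=
          Real.exp_le_exp.2 (by linarith)
      _ = |α| := by rw [hla, Real.exp_log hα0]
  have hF₀b : ∀ i, ∀ p ∈ F₀ i, (∀ n, ‖p.2 n‖ ≤ 1) ∧ |α| ≤ |p.1| ∧ |p.1| ≤ RR c i * |α| := by
    intro i p hp
    rw [hF₀, mem_image] at hp
    obtain ⟨h, hh, rfl⟩ := hp
    rw [mem_Icc] at hh
    have h1 : (1 : ℝ) ≤ h := by exact_mod_cast hh.1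
    have h2 : (h : ℝ) ≤ RR c i := by exact_mod_cast hh.2
    refine ⟨hz h, ?_, ?_⟩
    · simp only
      rw [abs_mul, abs_of_nonneg (by linarith : (0 : ℝ) ≤ h)]
      exact le_mul_of_one_le_left hα0.le h1
    · simp only
      rw [abs_mul, abs_of_nonneg (by linarith : (0 : ℝ) ≤ h)]
      exact mul_le_mul_of_nonneg_right h2 hα0.le
  have hfam := hblock Ω μ b X hdig (fun i => FF (F₀ i) (RR c i) D) (by
    filter_upwards [hsize, hlow] with i h1 h2
    constructor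
    · have h3 := FF_card (F₀ i) (RR c i) D
      have h4 : (F₀ i).card ≤ RR c i := by
        refine card_image_le.trans ?_
        rw [Nat.card_Icc, Nat.add_sub_cancel]
      calc ((FF (F₀ i) (RR c i) D).card : ℝ) ≤ (((F₀ i).card * RR c i ^ D : ℕ) : ℝ) := by exact_mod_cast h3
        _ ≤ ((RR c i * RR c i ^ D : ℕ) : ℝ) := by exact_mod_cast Nat.mul_le_mul_right _ h4
        _ = (RR c i : ℝ) ^ (D + 1) := by push_cast; ring
    · intro p hp
      obtain ⟨h3, h4, h5⟩ := FF_bounds (F₀ i) (RR c i) |α| (RR c i * |α|) hα0.le (hF₀b i) D p hp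
      refine ⟨h3, h2.trans h4, h5.trans ?_⟩
      have hR1 : (1 : ℝ) ≤ RR c i := by exact_mod_cast RR_pos c hc0 i
      have h6 : (RR c i : ℝ) ≤ Real.exp (RR c i : ℝ) := by
        have := Real.add_one_le_exp (RR c i : ℝ)
        linarith
      calc (RR c i : ℝ) * |α| * Real.exp (D * RR c i)
          ≤ Real.exp (RR c i : ℝ) * Real.exp la * Real.exp (D * RR c i) := by
            rw [hla, Real.exp_log hα0]
            gcongr
        _ = Real.exp ((D + 1) * (RR c i : ℝ) + la) := by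
            rw [← Real.exp_add, ← Real.exp_add]
            congr 1
            ring
        _ ≤ _ := Real.exp_le_exp.2 h1.2)
  filter_upwards [hfam] with ω hω
  filter_upwards [hω, hsize] with i h1 h2
  intro h hh P hP L hL
  have hRM : RR c i ≤ 2 ^ i := by exact_mod_cast h2.1
  have h3 := poly_block (F₀ i) (RR c i) (2 ^ i) D (RR_pos c hc0 i) hRM (ser X (qq b) ω)
    (fun p hp => (hF₀b i p hp).1) h1 D 0 (by omega) ((h : ℝ) * α, z h)
    (mem_image.2 ⟨h, hh, rfl⟩) P hP L hL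
  refine h3.trans ?_
  have hR1 : (1 : ℝ) ≤ RR c i := by exact_mod_cast RR_pos c hc0 i
  have h4 : 1 / (RR c i : ℝ) ≤ 2 * Real.exp (-(c * cr i)) := by
    have h5 := RR_ge c hc0 i
    rw [Real.exp_neg, div_le_iff₀ (by linarith)]
    have h6 := Real.exp_pos (c * cr i)
    calc (1 : ℝ) = 2 * (Real.exp (c * cr i))⁻¹ * (Real.exp (c * cr i) / 2) := by
          field_simp
      _ ≤ _ := mul_le_mul_of_nonneg_left h5 (by positivity)
  have h7 := eta_le (RR c i) (c * cr i) h4 D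
  have h8 : c * cr i / 2 ^ D = c / 2 ^ D * cr i := by ring
  rw [h8] at h7
  have hM0 : (0 : ℝ) ≤ ((2 ^ i : ℕ) : ℝ) := Nat.cast_nonneg _
  calc 5 * (((2 ^ i : ℕ) : ℝ) * eta (RR c i) D)
      ≤ 5 * (((2 ^ i : ℕ) : ℝ) * (2 * Real.exp (-(c / 2 ^ D * cr i)))) := by gcongr
    _ = _ := by ring

end Pool.Agent.T3H29.EN
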