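import Pool.Agent.T3H29.EN.Mom

/-!
# The choice of the parameters
-/

set_option autoImplicit false

namespace Pool.Agent.T3H29.EN

open Finset MeasureTheory ProbabilityTheory Filter Topology
open Pool.Agent.H469R2.NK (e conj_e)

universe u

lemma ev_small (b C : ℝ) (hb : 0 < b) (k : ℕ) (ε : ℝ) (hε : 0 < ε) :
    ∀ᶠ x : ℝ in atTop, C * x ^ k * Real.exp (-(b * x)) ≤ ε := by
  have h1 := (Real.tendsto_pow_mul_exp_neg_atTop_nhds_zero k).comp (tendsto_id.const_mul_atTop hb)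
  have h2 := h1.const_mul (C / b ^ k)
  rw [mul_zero] at h2
  filter_upwards [h2.eventually (gt_mem_nhds hε)] with x hx
  refine le_trans (le_of_eq ?_) hx.le
  simp only [Function.comp, id]
  have : b ^ k ≠ 0 := pow_ne_zero _ hb.ne'
  rw [mul_pow]
  field_simp

/-- the cube root of the logarithm -/
noncomputable def cl (x : ℝ) : ℝ := Real.log x ^ (1 / 3 : ℝ)

lemma cl_cube (x : ℝ) (hx : 1 ≤ x) : cl x ^ 3 = Real.log x := by
  unfold cl
  rw [← Real.rpow_natCast, ← Real.rpow_mul (Real.log_nonneg hx)]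
  norm_num

lemma cl_nonneg (x : ℝ) (hx : 1 ≤ x) : 0 ≤ cl x := Real.rpow_nonneg (Real.log_nonneg hx) _

lemma cl_mono {x y : ℝ} (hx : 1 ≤ x) (hxy : x ≤ y) : cl x ≤ cl y :=
  Real.rpow_le_rpow (Real.log_nonneg hx) (Real.log_le_log (by linarith) hxy) (by norm_num)

lemma cl_tendsto : Tendsto (fun M : ℕ => cl (M : ℝ)) atTop atTop :=
  ((tendsto_rpow_atTop (by norm_num : (0 : ℝ) < 1 / 3)).comp
    Real.tendsto_log_atTop).comp tendsto_natCast_atTop_atTop

lemma rho_ge (B : ℕ) (hB : 1 ≤ B) (κ : ℝ) (hκ0 : 0 ≤ κ) (hκ : κ ≤ 1) : 1 / 2 ≤ rho B κ := by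
  unfold rho
  have h1 : (1 : ℝ) ≤ B := by exact_mod_cast hB
  have h2 : (1 : ℝ) ≤ (2 * B).factorial := by exact_mod_cast Nat.factorial_pos _
  have h3 : κ / (2 * (B : ℝ) + 1) ^ 2 ≤ 1 / 9 := by
    rw [div_le_div_iff₀ (by positivity) (by norm_num)]
    nlinarith
  have h4 : (1 / (2 * (B : ℝ) * (2 * B).factorial)) ^ 2 ≤ 1 / 4 := by
    have h5 : 1 / (2 * (B : ℝ) * (2 * B).factorial) ≤ 1 / 2 := by
      apply one_div_le_one_div_of_le (by norm_num)
      nlinarith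
    have h6 : 0 ≤ 1 / (2 * (B : ℝ) * (2 * B).factorial) := by positivity
    nlinarith
  have h7 : 0 ≤ κ / (2 * (B : ℝ) + 1) ^ 2 := by positivity
  have h8 : 0 ≤ (1 / (2 * (B : ℝ) * (2 * B).factorial)) ^ 2 := by positivity
  nlinarith [mul_le_mul h3 h4 h8 (by norm_num)]

theorem rate (B : ℕ) (hB : 1 ≤ B) (κ : ℝ) (hκ : 0 < κ) (hκ1 : κ ≤ 1) :
    ∃ c : ℝ, 0 < c ∧ ∀ᶠ M : ℕ in atTop, ∀ (Ω : Type u) [MeasurableSpace Ω] (μ : Measure Ω)
      [IsProbabilityMeasure μ] (b : ℕ → ℕ) (X : ℕ → Ω → ℤ), Dig μ B κ b X →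
      ∀ z : ℕ → ℂ, (∀ n, ‖z n‖ ≤ 1) → ∀ β : ℝ,
      Real.exp (-((M : ℝ) / 16)) ≤ |β| → |β| ≤ Real.exp ((M : ℝ) / 16) →
      ∀ s : Finset ℕ, s ⊆ Ioc M (2 * M) →
      ∫ ω, ‖SS z β (ser X (qq b) ω) s‖ ^ 2 ∂μ ≤ (M : ℝ) ^ 2 * Real.exp (-(c * cl M)) := by
  classical
  obtain ⟨A, hA, hbadE⟩ := badE
  have hbad : ∀ δ a : ℝ, 0 < δ → δ ≤ 1 → a ≠ 0 → ∀ N : ℕ, 1 ≤ N → ∀ s : Finset ℕ,
      (∀ n ∈ s, n ∈ Icc 1 N ∧ BadE a δ n) → (s.card : ℝ) ≤ A / δ * (N : ℝ) ^ (1 - δ ^ 2 / 12800) := by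
    intro δ a h1 h2 h3 N h4 s hs
    refine le_trans ?_ (hbadE δ a h1 h2 h3 N h4)
    rw [Nat.cast_le]
    apply card_le_card
    intro n hn
    exact mem_filter.2 (hs n hn)
  have hρ0 := rho_ge B hB κ hκ.le hκ1
  have hρ1 := rho_lt B hB κ hκ
  have hρpos : 0 < rho B κ := by linarith
  set ρ := rho B κ with hρ
  set lam := -Real.log ρ with hlam
  have hlam0 : 0 < lam := by rw [hlam]; have := Real.log_neg hρpos hρ1; linarith
  have hlamexp : ρ = Real.exp (-lam) := by rw [hlam, neg_neg, Real.exp_log hρpos]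
  refine ⟨min (lam / 32) (1 / 25600), lt_min (by positivity) (by norm_num), ?_⟩
  set c := min (lam / 32) (1 / 25600) with hc
  have hc1 : c ≤ lam / 32 := min_le_left _ _
  have hc2 : c ≤ 1 / 25600 := min_le_right _ _
  have hT := cl_tendsto
  have hMt : Tendsto (fun M : ℕ => (M : ℝ)) atTop atTop := tendsto_natCast_atTop_atTop
  have hMdiv : ∀ᶠ M : ℕ in atTop, Real.log B * cl (M : ℝ) ≤ M := by
    have h1 : ∀ᶠ x : ℝ in atTop, Real.log B * x ≤ Real.exp (x ^ 3) := by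
      filter_upwards [eventually_ge_atTop (1 : ℝ), eventually_ge_atTop (Real.log B)] with x hx1 hx2
      have h2 := Real.add_one_le_exp (x ^ 3)
      have h3 : x * x ≤ x ^ 3 := by nlinarith
      nlinarith
    filter_upwards [hT.eventually h1, hMt.eventually_ge_atTop 1] with M h2 hM
    rw [cl_cube _ hM, Real.exp_log (by linarith)] at h2
    exact h2
  have hfac : ∀ᶠ M : ℕ in atTop, ((2 * B).factorial : ℝ) ≤ Real.exp ((M : ℝ) / 16) :=
    (Real.tendsto_exp_atTop.comp (hMt.atTop_div_const (by norm_num))).eventually_ge_atTop _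
  have h8 : ∀ᶠ M : ℕ in atTop, 1 + Real.log B ≤ 5 * (M : ℝ) / 8 := by
    filter_upwards [hMt.eventually_ge_atTop (8 / 5 * (1 + Real.log B))] with M hM
    linarith
  filter_upwards [hT.eventually (ev_small (1 / 2) 1 (by norm_num) 0 (1 / 3) (by norm_num)),
    hT.eventually (ev_small (lam / 32) 4 (by positivity) 0 (1 / 3) (by norm_num)),
    hT.eventually (ev_small (1 / 25600) (A / 4) (by norm_num) 2 (1 / 3) (by norm_num)),
    hT.eventually_ge_atTop 1, hMdiv, hfac, h8, hMt.eventually_ge_atTop 16] with M e1 e2 e3 hu1 hd hf h8 hM16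
  intro Ω _ μ _ b X h z hz β hβ1 hβ2 s hs
  have hM1 : (1 : ℝ) ≤ M := by linarith
  have hM0 : (0 : ℝ) < M := by linarith
  set u := cl (M : ℝ) with hu
  have hu0 : 0 < u := by linarith
  have hcube : u ^ 3 = Real.log M := cl_cube _ hM1
  set J := ⌊u / 16⌋₊ with hJ
  have hJ1 : (J : ℝ) ≤ u / 16 := Nat.floor_le (by positivity)
  have hJ2 : u / 16 - 1 < J := Nat.sub_one_lt_floor _
  have hδ0 : 0 < 1 / u := by positivity
  have hδ1 : 1 / u ≤ 1 := by rw [div_le_one hu0]; exact hu1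
  have hB1 : (1 : ℝ) ≤ B := by exact_mod_cast hB
  have key := second A hbad μ B κ hκ (by linarith) b X h M J (by exact_mod_cast hM1) (1 / u) hδ0 hδ1
    (by
      calc 16 * (1 / u) * J ≤ 16 * (1 / u) * (u / 16) := mul_le_mul_of_nonneg_left hJ1 (by positivity)
        _ = 1 := by field_simp)
    (by
      calc (B : ℝ) = Real.exp (Real.log B) := (Real.exp_log (by linarith)).symm
        _ ≤ Real.exp (1 / u * M) := by
          apply Real.exp_le_exp.2
          rw [one_div, inv_mul_eq_div, le_div_iff₀ hu0]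
          exact hd)
    h8 hf (by exact_mod_cast hM16) z hz β hβ1 hβ2 s hs
  refine key.trans ?_
  -- the power of rho
  have p1 : ρ ^ J ≤ 2 * Real.exp (-(lam / 16 * u)) := by
    rw [hlamexp, ← Real.exp_nat_mul]
    have h9 : (J : ℝ) * -lam ≤ lam + -(lam / 16 * u) := by nlinarith
    calc Real.exp ((J : ℝ) * -lam) ≤ Real.exp (lam + -(lam / 16 * u)) := Real.exp_le_exp.2 h9
      _ = Real.exp lam * Real.exp (-(lam / 16 * u)) := Real.exp_add _ _
      _ ≤ 2 * Real.exp (-(lam / 16 * u)) := by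
          apply mul_le_mul_of_nonneg_right _ (Real.exp_pos _).le
          have h10 : Real.exp lam = ρ⁻¹ := by rw [hlam, Real.exp_neg, Real.exp_log hρpos]
          rw [h10]
          calc ρ⁻¹ ≤ (1 / 2 : ℝ)⁻¹ := inv_anti₀ (by norm_num) hρ0
            _ = 2 := by norm_num
  -- the power of M
  have p2 : ((2 * M : ℕ) : ℝ) ^ (1 - (1 / u) ^ 2 / 12800) ≤ 2 * M * Real.exp (-(1 / 12800 * u)) := by
    have h2M : (0 : ℝ) < ((2 * M : ℕ) : ℝ) := by push_cast; linarith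
    rw [Real.rpow_sub h2M, Real.rpow_one, div_eq_mul_inv, ← Real.rpow_neg h2M.le]
    push_cast
    apply mul_le_mul_of_nonneg_left _ (by positivity)
    calc (2 * (M : ℝ)) ^ (-((1 / u) ^ 2 / 12800)) ≤ (M : ℝ) ^ (-((1 / u) ^ 2 / 12800)) := by
          apply Real.rpow_le_rpow_of_nonpos hM0 (by linarith)
          have : 0 ≤ (1 / u) ^ 2 / 12800 := by positivity
          linarith
      _ = Real.exp (-(1 / 12800 * u)) := by
          rw [Real.rpow_def_of_pos hM0, ← hcube]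
          congr 1
          field_simp
  have p3 : (J : ℝ) * (A / (1 / u) * ((2 * M : ℕ) : ℝ) ^ (1 - (1 / u) ^ 2 / 12800)) ≤
      M * (A / 8 * u ^ 2 * Real.exp (-(1 / 12800 * u))) := by
    calc (J : ℝ) * (A / (1 / u) * ((2 * M : ℕ) : ℝ) ^ (1 - (1 / u) ^ 2 / 12800))
        ≤ (u / 16) * (A / (1 / u) * (2 * M * Real.exp (-(1 / 12800 * u)))) := by
          apply mul_le_mul hJ1 _ (by positivity) (by positivity)
          exact mul_le_mul_of_nonneg_left p2 (by positivity)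
      _ = _ := by field_simp; ring
  have p4 : (1 : ℝ) ≤ M * Real.exp (-u) := by
    have : Real.exp u ≤ M := by
      calc Real.exp u ≤ Real.exp (u ^ 3) := Real.exp_le_exp.2 (by nlinarith [sq_nonneg u])
        _ = M := by rw [hcube, Real.exp_log hM0]
    calc (1 : ℝ) = Real.exp u * Real.exp (-u) := by rw [← Real.exp_add]; simp
      _ ≤ _ := mul_le_mul_of_nonneg_right this (Real.exp_pos _).le
  have p5 : (M : ℝ) ≤ M ^ 2 * Real.exp (-u) := by nlinarith
  have split1 : Real.exp (-u) ≤ Real.exp (-(c * u)) * Real.exp (-(1 / 2 * u)) := by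
    rw [← Real.exp_add]
    apply Real.exp_le_exp.2
    nlinarith
  have split2 : Real.exp (-(lam / 16 * u)) ≤ Real.exp (-(c * u)) * Real.exp (-(lam / 32 * u)) := by
    rw [← Real.exp_add]
    apply Real.exp_le_exp.2
    nlinarith
  have split3 : Real.exp (-(1 / 12800 * u)) ≤ Real.exp (-(c * u)) * Real.exp (-(1 / 25600 * u)) := by
    rw [← Real.exp_add]
    apply Real.exp_le_exp.2
    nlinarith
  set Ec := Real.exp (-(c * u)) with hEc
  have hEc0 : 0 < Ec := Real.exp_pos _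
  have f1 : Real.exp (-u) ≤ Ec * (1 / 3) := by
    refine split1.trans (mul_le_mul_of_nonneg_left ?_ hEc0.le)
    simpa using e1
  have f2 : 4 * Real.exp (-(lam / 16 * u)) ≤ Ec * (1 / 3) := by
    calc 4 * Real.exp (-(lam / 16 * u)) ≤ 4 * (Ec * Real.exp (-(lam / 32 * u))) := by linarith
      _ = Ec * (4 * u ^ 0 * Real.exp (-(lam / 32 * u))) := by ring
      _ ≤ _ := mul_le_mul_of_nonneg_left e2 hEc0.le
  have f3 : A / 4 * u ^ 2 * Real.exp (-(1 / 12800 * u)) ≤ Ec * (1 / 3) := by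
    calc A / 4 * u ^ 2 * Real.exp (-(1 / 12800 * u)) ≤ A / 4 * u ^ 2 * (Ec * Real.exp (-(1 / 25600 * u))) :=
          mul_le_mul_of_nonneg_left split3 (by positivity)
      _ = Ec * (A / 4 * u ^ 2 * Real.exp (-(1 / 25600 * u))) := by ring
      _ ≤ _ := mul_le_mul_of_nonneg_left e3 hEc0.le
  have hMM : (0 : ℝ) < (M : ℝ) ^ 2 := by positivity
  calc (M : ℝ) + 2 * (M * (M * ρ ^ J + J * (A / (1 / u) * ((2 * M : ℕ) : ℝ) ^ (1 - (1 / u) ^ 2 / 12800))))
      ≤ M ^ 2 * Real.exp (-u) + 2 * (M * (M * (2 * Real.exp (-(lam / 16 * u))) +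
        M * (A / 8 * u ^ 2 * Real.exp (-(1 / 12800 * u))))) := by
        have g1 : (M : ℝ) * ρ ^ J ≤ M * (2 * Real.exp (-(lam / 16 * u))) :=
          mul_le_mul_of_nonneg_left p1 hM0.le
        have g2 := mul_le_mul_of_nonneg_left (add_le_add g1 p3) hM0.le
        linarith
    _ = M ^ 2 * (Real.exp (-u) + 4 * Real.exp (-(lam / 16 * u)) +
        A / 4 * u ^ 2 * Real.exp (-(1 / 12800 * u))) := by ring
    _ ≤ M ^ 2 * (Ec * (1 / 3) + Ec * (1 / 3) + Ec * (1 / 3)) :=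
        mul_le_mul_of_nonneg_left (by linarith) hMM.le
    _ = M ^ 2 * Ec := by ring

end Pool.Agent.T3H29.EN
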