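import Pool.Agent.T3H29.EN.All
import Pool.Agent.TH915.PW.Disc

/-!
# The bases `e ^ (p / q)` and the discrepancy
-/

set_option autoImplicit false

namespace Pool.Agent.T3H29.EN

open Finset MeasureTheory ProbabilityTheory Filter Topology
open Pool.Agent.H469R2.NK (e conj_e)

universe u

/-- splitting into residue classes modulo `q` -/
lemma UU_split (f : ℕ → ℂ) (N q : ℕ) (hq : 1 ≤ q) :
    UU f N = ∑ n ∈ (Icc 1 N).filter (fun n => n < q), f n +
      ∑ i ∈ range q, ∑ m ∈ Icc 1 ((N - i) / q), f (q * m + i) := by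
  classical
  unfold UU
  rw [← sum_filter_add_sum_filter_not (Icc 1 N) (fun n => n < q)]
  congr 1
  rw [← sum_fiberwise_of_maps_to (s := (Icc 1 N).filter (fun n => ¬ n < q)) (t := range q)
    (g := fun n => n % q) (fun n _ => mem_range.2 (Nat.mod_lt n hq))]
  apply sum_congr rfl
  intro i hi
  rw [mem_range] at hi
  apply sum_nbij' (fun n => n / q) (fun m => q * m + i)
  · intro n hn
    simp only [mem_filter, mem_Icc, not_lt] at hn
    obtain ⟨⟨⟨h1, h2⟩, h3⟩, h4⟩ := hn
    rw [mem_Icc]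
    constructor
    · exact Nat.div_pos h3 hq
    · have h5 := Nat.div_add_mod n q
      rw [h4] at h5
      rw [Nat.le_div_iff_mul_le hq]
      have : n / q * q = q * (n / q) := mul_comm _ _
      omega
  · intro m hm
    rw [mem_Icc] at hm
    simp only [mem_filter, mem_Icc, not_lt]
    have h1 : q * m ≤ N - i := by
      have := (Nat.le_div_iff_mul_le hq).1 hm.2
      rw [mul_comm]; exact this
    have h2 : q * 1 ≤ q * m := Nat.mul_le_mul_left q hm.1
    refine ⟨⟨⟨by omega, by omega⟩, by omega⟩, ?_⟩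
    rw [Nat.mul_add_mod, Nat.mod_eq_of_lt hi]
  · intro n hn
    simp only [mem_filter, mem_Icc, not_lt] at hn
    obtain ⟨⟨⟨h1, h2⟩, h3⟩, h4⟩ := hn
    have h5 := Nat.div_add_mod n q
    rw [h4] at h5
    exact h5
  · intro m hm
    rw [Nat.mul_add_div hq, Nat.div_eq_of_lt hi, add_zero]
  · intro n hn
    simp only [mem_filter, mem_Icc, not_lt] at hn
    obtain ⟨⟨⟨h1, h2⟩, h3⟩, h4⟩ := hn
    have h5 := Nat.div_add_mod n q
    rw [h4] at h5
    rw [h5]

/-- multiples of `p` -/
lemma sum_mult (g : ℕ → ℂ) (p m₀ : ℕ) (hp : 1 ≤ p) :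
    ∑ m ∈ Icc 1 m₀, g m = UU (fun m' => if p ∣ m' then g (m' / p) else 0) (p * m₀) := by
  classical
  unfold UU
  rw [← sum_filter]
  apply sum_nbij' (fun m => p * m) (fun m' => m' / p)
  · intro m hm
    rw [mem_Icc] at hm
    rw [mem_filter, mem_Icc]
    exact ⟨⟨Nat.mul_pos hp hm.1, Nat.mul_le_mul_left p hm.2⟩, Dvd.intro _ rfl⟩
  · intro m' hm'
    rw [mem_filter, mem_Icc] at hm'
    obtain ⟨⟨h1, h2⟩, ⟨k, rfl⟩⟩ := hm'
    simp only [Nat.mul_div_cancel_left k hp]
    rw [mem_Icc]
    constructor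
    · by_contra hk
      have : k = 0 := by omega
      subst this
      omega
    · exact Nat.le_of_mul_le_mul_left h2 hp
  · intro m _
    simp only [Nat.mul_div_cancel_left m hp]
  · intro m' hm'
    rw [mem_filter, mem_Icc] at hm'
    exact Nat.mul_div_cancel' hm'.2
  · intro m _
    simp only [Nat.mul_div_cancel_left m hp]

lemma cl_half (N : ℝ) (a : ℝ) (ha : 1 ≤ a) (hN : a ^ 2 ≤ N) : cl N / 2 ≤ cl (N / a) := by
  have hN1 : 1 ≤ N := le_trans (one_le_pow₀ ha) hN
  have ha0 : 0 < a := by linarith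
  have h1 : 1 ≤ N / a := by
    rw [le_div_iff₀ ha0, one_mul]
    nlinarith
  have h2 : (cl N / 2) ^ 3 ≤ (cl (N / a)) ^ 3 := by
    rw [div_pow, cl_cube N hN1, cl_cube _ h1, Real.log_div (by linarith) ha0.ne']
    have h3 : 2 * Real.log a ≤ Real.log N := by
      have := Real.log_le_log (by positivity) hN
      rw [Real.log_pow] at this
      exact_mod_cast this
    have h4 : 0 ≤ Real.log N := Real.log_nonneg hN1
    norm_num
    linarith
  exact le_of_pow_le_pow_left₀ (by norm_num) (cl_nonneg _ h1) h2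

theorem weyl_rat (B : ℕ) (hB : 1 ≤ B) (κ : ℝ) (hκ : 0 < κ) (hκ1 : κ ≤ 1) (D p q : ℕ) (hp : 1 ≤ p)
    (hq : 1 ≤ q) :
    ∃ c : ℝ, 0 < c ∧ ∀ (Ω : Type u) [MeasurableSpace Ω] (μ : Measure Ω)
      [IsProbabilityMeasure μ] (b : ℕ → ℕ) (X : ℕ → Ω → ℤ), Dig μ B κ b X →
      ∀ α : ℝ, α ≠ 0 → ∀ z : ℕ → ℕ → ℂ, (∀ h n, ‖z h n‖ ≤ 1) →
      ∀ᵐ ω ∂μ, ∀ᶠ N : ℕ in atTop, ∀ h : ℕ, 1 ≤ h → (h : ℝ) ≤ Real.exp (c * cl N) →
        ∀ P : Polynomial ℝ, P.natDegree ≤ D →
        ‖UU (fun n => z h n * e (h * α * Real.exp (p / q * n) * ser X (qq b) ω + P.eval (n : ℝ))) N‖ ≤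
          N * Real.exp (-(c * cl N)) := by
  classical
  obtain ⟨c, hc, hall⟩ := weyl_all.{u} B hB κ hκ hκ1 D
  refine ⟨c / 4, by positivity, ?_⟩
  intro Ω _ μ _ b X hdig α hα z hz
  have hp0 : (0 : ℝ) < p := by exact_mod_cast hp
  have hq0 : (0 : ℝ) < q := by exact_mod_cast hq
  have hq1 : (1 : ℝ) ≤ q := by exact_mod_cast hq
  have hae : ∀ i ∈ range q, ∀ᵐ ω ∂μ, ∀ᶠ N : ℕ in atTop, ∀ h : ℕ, 1 ≤ h → (h : ℝ) ≤ Real.exp (c * cl N) →
        ∀ P : Polynomial ℝ, P.natDegree ≤ D →
        ‖UU (fun n => (if p ∣ n then z h (q * (n / p) + i) else 0) *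
          e (h * (α * Real.exp (p / q * i)) * Real.exp n * ser X (qq b) ω + P.eval (n : ℝ))) N‖ ≤
          N * Real.exp (-(c * cl N)) := by
    intro i _
    apply hall Ω μ b X hdig (α * Real.exp (p / q * i)) (mul_ne_zero hα (Real.exp_pos _).ne')
      (fun h n => if p ∣ n then z h (q * (n / p) + i) else 0)
    intro h n
    split_ifs
    · exact hz _ _
    · simp
  have hae' : ∀ᵐ ω ∂μ, ∀ i ∈ range q, ∀ᶠ N : ℕ in atTop, ∀ h : ℕ, 1 ≤ h → (h : ℝ) ≤ Real.exp (c * cl N) →
        ∀ P : Polynomial ℝ, P.natDegree ≤ D →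
        ‖UU (fun n => (if p ∣ n then z h (q * (n / p) + i) else 0) *
          e (h * (α * Real.exp (p / q * i)) * Real.exp n * ser X (qq b) ω + P.eval (n : ℝ))) N‖ ≤
          N * Real.exp (-(c * cl N)) := by
    rw [Filter.eventually_all_finset]
    exact hae
  filter_upwards [hae'] with ω hω
  have hω' : ∀ᶠ N' : ℕ in atTop, ∀ i ∈ range q, ∀ h : ℕ, 1 ≤ h → (h : ℝ) ≤ Real.exp (c * cl N') →
        ∀ P : Polynomial ℝ, P.natDegree ≤ D →
        ‖UU (fun n => (if p ∣ n then z h (q * (n / p) + i) else 0) *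
          e (h * (α * Real.exp (p / q * i)) * Real.exp n * ser X (qq b) ω + P.eval (n : ℝ))) N'‖ ≤
          N' * Real.exp (-(c * cl N')) := by
    rw [Filter.eventually_all_finset]
    exact hω
  obtain ⟨N₀, hN₀⟩ := eventually_atTop.1 hω'
  have hT := cl_tendsto
  filter_upwards [eventually_ge_atTop (4 * q ^ 2), eventually_ge_atTop (2 * q * N₀),
    hT.eventually_ge_atTop 1,
    hT.eventually (Real.tendsto_exp_atTop.comp (tendsto_id.const_mul_atTop
      (by positivity : (0 : ℝ) < c / 4)) |>.eventually_ge_atTop (q * p + 1)),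
    hT.eventually_ge_atTop (c / 2 + Real.log q)]
    with N hN1 hN2 hu1 hu2 hu3
  intro h hh1 hh2 P hP
  simp only [Function.comp, id] at hu2
  have hq2 : 1 ≤ q ^ 2 := Nat.one_le_pow _ _ hq
  have hN1' : (4 : ℝ) * q ^ 2 ≤ N := by exact_mod_cast hN1
  have hNge : (1 : ℝ) ≤ N := by nlinarith
  have hN0 : (0 : ℝ) < N := by linarith
  set u := cl (N : ℝ) with hu
  have hcube : u ^ 3 = Real.log N := cl_cube _ hNge
  -- the lengths
  have hlen : ∀ i ∈ range q, (N : ℝ) / (2 * q) ≤ ((p * ((N - i) / q) : ℕ) : ℝ) ∧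
      ((p * ((N - i) / q) : ℕ) : ℝ) ≤ p * N := by
    intro i hi
    rw [mem_range] at hi
    constructor
    · have h1 : N ≤ 2 * q * ((N - i) / q) := by
        have h2 := Nat.div_add_mod (N - i) q
        have h3 := Nat.mod_lt (N - i) (show 0 < q by omega)
        have h4 : 4 * q ≤ N := le_trans (by nlinarith) hN1
        have h5 : 2 * q * ((N - i) / q) = 2 * (q * ((N - i) / q)) := by ring
        omega
      have h2 : (N : ℝ) ≤ 2 * q * ((N - i) / q : ℕ) := by exact_mod_cast h1
      rw [div_le_iff₀ (by positivity)]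
      have h3 : (1 : ℝ) ≤ p := by exact_mod_cast hp
      push_cast
      have h4 : (0 : ℝ) ≤ (((N - i) / q : ℕ) : ℝ) := Nat.cast_nonneg _
      nlinarith [mul_nonneg h4 hq0.le]
    · push_cast
      apply mul_le_mul_of_nonneg_left _ hp0.le
      have : (N - i) / q ≤ N := (Nat.div_le_self _ _).trans (Nat.sub_le _ _)
      exact_mod_cast this
  have hclen : ∀ i ∈ range q, u / 2 ≤ cl ((p * ((N - i) / q) : ℕ) : ℝ) := by
    intro i hi
    have h1 := cl_half N (2 * q) (by linarith) (by nlinarith)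
    refine h1.trans (cl_mono ?_ (hlen i hi).1)
    rw [le_div_iff₀ (by positivity)]
    nlinarith
  rw [UU_split _ N q hq]
  refine (norm_add_le _ _).trans ?_
  have hfirst : ‖∑ n ∈ (Icc 1 N).filter (fun n => n < q), z h n *
      e (h * α * Real.exp (p / q * n) * ser X (qq b) ω + P.eval (n : ℝ))‖ ≤ q := by
    refine (norm_sum_le _ _).trans ?_
    calc _ ≤ ∑ _n ∈ (Icc 1 N).filter (fun n => n < q), (1 : ℝ) := by
          apply sum_le_sum
          intro n _
          rw [norm_mul, norm_e', mul_one]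
          exact hz h n
      _ = (((Icc 1 N).filter (fun n => n < q)).card : ℝ) := by simp
      _ ≤ q := by
          have h1 : (Icc 1 N).filter (fun n => n < q) ⊆ range q := by
            intro n hn
            rw [mem_filter] at hn
            exact mem_range.2 hn.2
          have := card_le_card h1
          rw [card_range] at this
          exact_mod_cast this
  have hsecond : ‖∑ i ∈ range q, ∑ m ∈ Icc 1 ((N - i) / q), z h (q * m + i) *
      e (h * α * Real.exp (p / q * ((q * m + i : ℕ) : ℝ)) * ser X (qq b) ω + P.eval ((q * m + i : ℕ) : ℝ))‖ ≤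
      q * (p * N * Real.exp (-(c * (u / 2)))) := by
    refine (norm_sum_le _ _).trans ?_
    calc _ ≤ ∑ _i ∈ range q, (p * N * Real.exp (-(c * (u / 2)))) := by
          apply sum_le_sum
          intro i hi
          have h1 := sum_mult (fun m => z h (q * m + i) *
            e (h * α * Real.exp (p / q * ((q * m + i : ℕ) : ℝ)) * ser X (qq b) ω +
              P.eval ((q * m + i : ℕ) : ℝ))) p ((N - i) / q) hp
          rw [h1]
          have h2 := hN₀ (p * ((N - i) / q)) (by
            have h3 := (hlen i hi).1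
            have h4 : (2 * (q : ℝ) * N₀) ≤ N := by exact_mod_cast hN2
            have h5 : (N₀ : ℝ) ≤ (N : ℝ) / (2 * q) := by
              rw [le_div_iff₀ (by positivity)]; linarith
            exact_mod_cast h5.trans h3) i hi h hh1 (by
              refine hh2.trans (Real.exp_le_exp.2 ?_)
              have := hclen i hi
              nlinarith) (P.comp (Polynomial.C ((q : ℝ) / p) * Polynomial.X + Polynomial.C (i : ℝ))) (by
              refine (Polynomial.natDegree_comp_le).trans ?_
              have h3 : (Polynomial.C ((q : ℝ) / p) * Polynomial.X + Polynomial.C (i : ℝ)).natDegree ≤ 1 :=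
                Polynomial.natDegree_linear_le
              calc P.natDegree * _ ≤ P.natDegree * 1 := Nat.mul_le_mul_left _ h3
                _ ≤ D := by rw [mul_one]; exact hP)
          have h3 : (fun m' : ℕ => if p ∣ m' then z h (q * (m' / p) + i) *
            e (h * α * Real.exp (p / q * ((q * (m' / p) + i : ℕ) : ℝ)) * ser X (qq b) ω +
              P.eval ((q * (m' / p) + i : ℕ) : ℝ)) else 0) =
            (fun n => (if p ∣ n then z h (q * (n / p) + i) else 0) *
          e (h * (α * Real.exp (p / q * i)) * Real.exp n * ser X (qq b) ω +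
            (P.comp (Polynomial.C ((q : ℝ) / p) * Polynomial.X + Polynomial.C (i : ℝ))).eval (n : ℝ))) := by
            funext m'
            split_ifs with hdvd
            · obtain ⟨k, rfl⟩ := hdvd
              rw [Nat.mul_div_cancel_left k hp]
              congr 2
              rw [Polynomial.eval_comp, Polynomial.eval_add, Polynomial.eval_mul, Polynomial.eval_C,
                Polynomial.eval_X, Polynomial.eval_C]
              have e1 : (p : ℝ) / q * ((q * k + i : ℕ) : ℝ) = p / q * i + ((p * k : ℕ) : ℝ) := by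
                push_cast
                field_simp
                ring
              have e2 : ((q * k + i : ℕ) : ℝ) = (q : ℝ) / p * ((p * k : ℕ) : ℝ) + i := by
                push_cast
                field_simp
              rw [e1, Real.exp_add, ← e2]
              ring
            · rw [zero_mul]
          rw [h3]
          refine h2.trans ?_
          have h4 : Real.exp (-(c * cl ((p * ((N - i) / q) : ℕ) : ℝ))) ≤ Real.exp (-(c * (u / 2))) := by
            apply Real.exp_le_exp.2
            have := hclen i hi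
            nlinarith
          exact mul_le_mul (hlen i hi).2 h4 (Real.exp_pos _).le (by positivity)
      _ = _ := by rw [sum_const, card_range, nsmul_eq_mul]
  have hE : Real.exp (-(c * (u / 2))) = Real.exp (-(c / 4 * u)) * Real.exp (-(c / 4 * u)) := by
    rw [← Real.exp_add]; congr 1; ring
  set E := Real.exp (-(c / 4 * u)) with hEd
  have hE0 : 0 < E := Real.exp_pos _
  have hE1 : (q * p + 1) * E ≤ 1 := by
    have h1 : Real.exp (c / 4 * u) * E = 1 := by rw [hEd, ← Real.exp_add]; simp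
    exact (mul_le_mul_of_nonneg_right hu2 hE0.le).trans h1.le
  -- the constant `q` is small
  have hlogq : 0 ≤ Real.log q := Real.log_nonneg hq1
  have hNu : (q : ℝ) ≤ N * (E * E) := by
    rw [← hE]
    calc (q : ℝ) = Real.exp (Real.log q) := (Real.exp_log hq0).symm
      _ ≤ Real.exp (u ^ 3 + -(c * (u / 2))) := by
          apply Real.exp_le_exp.2
          have h1 : (c / 2 + Real.log q) * u ≤ u * u := mul_le_mul_of_nonneg_right hu3 (by linarith)
          have h2 : u * u ≤ u ^ 3 := by nlinarith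
          have h3 : Real.log q ≤ Real.log q * u := le_mul_of_one_le_right hlogq hu1
          linarith
      _ = N * Real.exp (-(c * (u / 2))) := by rw [Real.exp_add, hcube, Real.exp_log hN0]
  have hfin : (q : ℝ) * (p * N * (E * E)) ≤ N * E - N * (E * E) := by
    have h1 : q * p * E ≤ 1 - E := by linarith
    have h2 := mul_le_mul_of_nonneg_left h1 (by positivity : 0 ≤ N * E)
    linarith
  rw [hE] at hsecond
  linarith

open Classical in
theorem disc_all (B : ℕ) (hB : 1 ≤ B) (κ : ℝ) (hκ : 0 < κ) (hκ1 : κ ≤ 1) (D p q : ℕ) (hp : 1 ≤ p)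
    (hq : 1 ≤ q) :
    ∃ c : ℝ, 0 < c ∧ ∀ (Ω : Type u) [MeasurableSpace Ω] (μ : Measure Ω)
      [IsProbabilityMeasure μ] (b : ℕ → ℕ) (X : ℕ → Ω → ℤ), Dig μ B κ b X →
      ∀ α : ℝ, α ≠ 0 → ∀ S : Set ℕ,
      ∀ᵐ ω ∂μ, ∀ᶠ N : ℕ in atTop, ∀ P : Polynomial ℝ, P.natDegree ≤ D → ∀ s t : ℝ, 0 ≤ s → s ≤ t → t ≤ 1 →
        |(((Icc 1 N).filter (fun n : ℕ => n ∈ S ∧
            s ≤ Int.fract (α * ser X (qq b) ω * Real.exp (p / q * n) + P.eval (n : ℝ)) ∧
            Int.fract (α * ser X (qq b) ω * Real.exp (p / q * n) + P.eval (n : ℝ)) < t)).card : ℝ) -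
          (t - s) * ((Icc 1 N).filter (fun n : ℕ => n ∈ S)).card| ≤ N * Real.exp (-(c * cl N)) := by
  obtain ⟨c, hc, hw⟩ := weyl_rat.{u} B hB κ hκ hκ1 D p q hp hq
  refine ⟨c / 12, by positivity, ?_⟩
  intro Ω _ μ _ b X hdig α hα S
  have h1 := hw Ω μ b X hdig α hα (fun _ n => if n ∈ S then 1 else 0) (by
    intro h n
    split_ifs <;> simp)
  filter_upwards [h1] with ω hω
  have hT := cl_tendsto
  filter_upwards [hω, eventually_ge_atTop 1, hT.eventually_ge_atTop 1,
    hT.eventually (Real.tendsto_exp_atTop.comp (tendsto_id.const_mul_atTop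
      (by positivity : (0 : ℝ) < c / 12)) |>.eventually_ge_atTop 30)] with N hN hN1 hu1 hu2
  intro P hP s t hs hst ht
  simp only [Function.comp, id] at hu2
  set u := cl (N : ℝ) with hu
  have hN0 : (0 : ℝ) < N := by exact_mod_cast hN1
  set K := ⌊Real.exp (c / 6 * u)⌋₊ with hK
  have hK1 : 1 ≤ K := by
    rw [hK, Nat.one_le_floor_iff]
    exact Real.one_le_exp (by positivity)
  have hK1' : (1 : ℝ) ≤ K := by exact_mod_cast hK1
  have hKle : (K : ℝ) ≤ Real.exp (c / 6 * u) := Nat.floor_le (Real.exp_pos _).le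
  have hKge : Real.exp (c / 6 * u) / 2 ≤ K := by
    have : Real.exp (c / 6 * u) < K + 1 := Nat.lt_floor_add_one _
    linarith
  have hK3 : (K : ℝ) ^ 3 ≤ Real.exp (c / 2 * u) := by
    calc (K : ℝ) ^ 3 ≤ (Real.exp (c / 6 * u)) ^ 3 := pow_le_pow_left₀ (by linarith) hKle 3
      _ = Real.exp (c / 2 * u) := by rw [← Real.exp_nat_mul]; congr 1; push_cast; ring
  set T := (Icc 1 N).filter (fun n : ℕ => n ∈ S) with hTd
  have hcard : (T.card : ℝ) ≤ N := by
    have := card_filter_le (Icc 1 N) (fun n : ℕ => n ∈ S)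
    rw [Nat.card_Icc, Nat.add_sub_cancel] at this
    exact_mod_cast this
  have hd := Pool.Agent.TH915.PW.disc T
    (fun n : ℕ => α * ser X (qq b) ω * Real.exp (p / q * n) + P.eval (n : ℝ)) K hK1
    (N * Real.exp (-(c * u))) (by positivity) (by
      intro h hh1 hh2
      have h3 : (h : ℝ) ≤ Real.exp (c * u) := by
        have h4 : (h : ℝ) ≤ (K : ℝ) ^ 3 := by exact_mod_cast hh2.le
        refine (h4.trans hK3).trans (Real.exp_le_exp.2 ?_)
        nlinarith
      have h5 := hN h hh1 h3 (Polynomial.C (h : ℝ) * P) (by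
        refine (Polynomial.natDegree_C_mul_le _ _).trans hP)
      refine le_trans (le_of_eq ?_) h5
      congr 1
      unfold UU
      rw [hTd, sum_filter]
      apply sum_congr rfl
      intro n _
      by_cases hnS : n ∈ S
      · simp only [if_pos hnS, one_mul]
        congr 1
        rw [Polynomial.eval_mul, Polynomial.eval_C]
        ring
      · simp only [if_neg hnS, zero_mul]) s t hs hst ht
  have hset : (Icc 1 N).filter (fun n : ℕ => n ∈ S ∧
            s ≤ Int.fract (α * ser X (qq b) ω * Real.exp (p / q * n) + P.eval (n : ℝ)) ∧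
            Int.fract (α * ser X (qq b) ω * Real.exp (p / q * n) + P.eval (n : ℝ)) < t) =
      T.filter (fun n : ℕ => s ≤ Int.fract (α * ser X (qq b) ω * Real.exp (p / q * n) + P.eval (n : ℝ)) ∧
            Int.fract (α * ser X (qq b) ω * Real.exp (p / q * n) + P.eval (n : ℝ)) < t) := by
    rw [hTd, filter_filter]
  rw [hset, mul_comm (t - s)]
  refine le_trans (le_of_eq ?_) (hd.trans ?_)
  · congr 3
  · have g1 : 14 * (T.card : ℝ) / K ≤ 28 * (N * Real.exp (-(c / 6 * u))) := by
      rw [div_le_iff₀ (by linarith)]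
      have h6 : (1 : ℝ) / 2 ≤ Real.exp (-(c / 6 * u)) * K := by
        calc (1 : ℝ) / 2 = Real.exp (-(c / 6 * u)) * (Real.exp (c / 6 * u) / 2) := by
              rw [← mul_div_assoc, ← Real.exp_add]; simp
          _ ≤ _ := mul_le_mul_of_nonneg_left hKge (Real.exp_pos _).le
      nlinarith [mul_le_mul_of_nonneg_left h6 hN0.le]
    have g2 : (K : ℝ) ^ 3 * (N * Real.exp (-(c * u))) ≤ N * Real.exp (-(c / 6 * u)) := by
      calc (K : ℝ) ^ 3 * (N * Real.exp (-(c * u))) ≤ Real.exp (c / 2 * u) * (N * Real.exp (-(c * u))) :=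
            mul_le_mul_of_nonneg_right hK3 (by positivity)
        _ = N * (Real.exp (c / 2 * u) * Real.exp (-(c * u))) := by ring
        _ ≤ N * Real.exp (-(c / 6 * u)) := by
            apply mul_le_mul_of_nonneg_left _ hN0.le
            rw [← Real.exp_add]
            apply Real.exp_le_exp.2
            nlinarith
    have g3 : Real.exp (-(c / 6 * u)) = Real.exp (-(c / 12 * u)) * Real.exp (-(c / 12 * u)) := by
      rw [← Real.exp_add]; congr 1; ring
    have g4 : 30 * Real.exp (-(c / 12 * u)) ≤ 1 := by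
      calc 30 * Real.exp (-(c / 12 * u)) ≤ Real.exp (c / 12 * u) * Real.exp (-(c / 12 * u)) :=
            mul_le_mul_of_nonneg_right hu2 (Real.exp_pos _).le
        _ = 1 := by rw [← Real.exp_add]; simp
    have g5 : 0 < Real.exp (-(c / 12 * u)) := Real.exp_pos _
    rw [g3] at g1 g2
    have g6 : (N : ℝ) * (Real.exp (-(c / 12 * u)) * Real.exp (-(c / 12 * u))) * 30 ≤
        N * Real.exp (-(c / 12 * u)) := by
      have := mul_le_mul_of_nonneg_left g4 (by positivity : 0 ≤ N * Real.exp (-(c / 12 * u)))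
      linarith
    linarith

end Pool.Agent.T3H29.EN
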